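import Pool.Agent.Y125.DQ.Abs
import Pool.Agent.N874.QM.Stm
import Pool.Agent.TH841.NF.ShaN

/-!
# The two notions of the Tate-Shafarevich group: separable and algebraic closures
-/

set_option autoImplicit false
set_option linter.all false

open NumberField IsDedekindDomain WeierstrassCurve WeierstrassCurve.Affine
open scoped Classical

namespace Pool.Agent.P8H4.PX

open Pool.Agent.TH115.GD hiding crv
open Pool.Agent.Y125.DQ
open Pool.Agent.N874.QM (SelC ShaC IsLoc)

section idp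

variable {K : Type} [Field K] (W : WeierstrassCurve K)

/-- the identity -/
noncomputable def idp (L : Type) [Field L] [Algebra K L] :
    Pool.Agent.TH841.SH.D.Pt W L →+ Pt W L where
  toFun := fun P => P
  map_zero' := rfl
  map_add' := fun P Q => rfl

lemma idp_inj (L : Type) [Field L] [Algebra K L] : Function.Injective (idp W L) := fun P Q h => h

lemma idp_surj (L : Type) [Field L] [Algebra K L] (Q : Pt W L) : ∃ P, idp W L P = Q := ⟨Q, rfl⟩

lemma idp_act {L L' : Type} [Field L] [Field L'] [Algebra K L] [Algebra K L'] (φ : L →ₐ[K] L')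
    (P : Pool.Agent.TH841.SH.D.Pt W L) :
    idp W L' (Pool.Agent.TH841.SH.D.act W φ P) = act W φ (idp W L P) := rfl

end idp

section tr

variable {F : Type} [Field F] {W : WeierstrassCurve F}

/-- transfer of the local triviality -/
theorem loc_tr (e : Sep F ≃ₐ[F] AlgebraicClosure F) {L L' Ω' : Type} [Field L] [Field L'] [Field Ω']
    [Algebra F L] [Algebra F L'] [Algebra L' Ω'] [Algebra F Ω'] [IsScalarTower F L' Ω']
    (Θ : AlgebraicClosure L ≃+* Ω') (θ : L ≃+* L')
    (hθ : ∀ x : L, Θ (algebraMap L _ x) = algebraMap L' Ω' (θ x))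
    (hF : ∀ x : F, θ (algebraMap F L x) = algebraMap F L' x)
    {f : Pool.Agent.TH841.SH.D.Coch W} (h : Pool.Agent.TH841.SH.D.LocTriv W L f) :
    LocTriv (K := F) (F := F) W L' Ω'
      (tf W e (fun σ => idp W (AlgebraicClosure F) (f σ))) := by
  let ι : AlgebraicClosure F →ₐ[F] AlgebraicClosure L := IsAlgClosed.lift
  obtain ⟨P, hP⟩ := h ι
  let ΘF : AlgebraicClosure L →ₐ[F] Ω' := { Θ.toRingHom with
    commutes' := fun x => by
      show Θ (algebraMap F (AlgebraicClosure L) x) = algebraMap F Ω' x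
      rw [IsScalarTower.algebraMap_apply F L (AlgebraicClosure L), hθ, hF,
        ← IsScalarTower.algebraMap_apply] }
  have hΘF : ∀ x, ΘF x = Θ x := fun x => rfl
  refine ⟨ΘF.comp (ι.comp (eh e)), act W ΘF (idp W _ P), ?_⟩
  intro τ' σ' hτσ
  let τ : AlgebraicClosure L ≃ₐ[L] AlgebraicClosure L :=
    AlgEquiv.ofRingEquiv (f := (Θ.trans τ'.toRingEquiv).trans Θ.symm) (fun x => by
      show Θ.symm (τ' (Θ (algebraMap L _ x))) = algebraMap L _ x
      rw [hθ, τ'.commutes, ← hθ, RingEquiv.symm_apply_apply])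
  have hτ : ∀ x, τ x = Θ.symm (τ' (Θ x)) := fun x => rfl
  have h1 : ∀ x, τ (ι x) = ι (e.autCongr σ' x) := by
    intro x
    rw [hτ, aut_apply]
    have h2 := hτσ (e.symm x)
    have h3 : (ΘF.comp (ι.comp (eh e))) (e.symm x) = Θ (ι x) := by
      show Θ (ι (e (e.symm x))) = _
      rw [AlgEquiv.apply_symm_apply]
    rw [h3] at h2
    rw [h2]
    show Θ.symm (Θ (ι (e (σ' (e.symm x))))) = _
    rw [RingEquiv.symm_apply_apply]
  have h4 := congrArg (fun z => act W ΘF (idp W _ z)) (hP τ (e.autCongr σ') h1)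
  have h5 : act W ΘF (idp W _ (Pool.Agent.TH841.SH.D.act W ι (f (e.autCongr σ')))) =
      act W ΘF (act W ι (idp W _ (f (e.autCongr σ')))) := rfl
  have h6 : act W ΘF (idp W _ (Pool.Agent.TH841.SH.D.act W (τ.toAlgHom.restrictScalars F) P - P)) =
      act W ΘF (act W (τ.toAlgHom.restrictScalars F) (idp W _ P)) - act W ΘF (idp W _ P) := by
    rw [map_sub, map_sub]
    rfl
  have h4' := h5.symm.trans (h4.trans h6)
  have e1 : act W ((ΘF.comp (ι.comp (eh e))).restrictScalars F)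
      (tf W e (fun σ => idp W (AlgebraicClosure F) (f σ)) σ') =
      act W ΘF (act W ι (idp W _ (f (e.autCongr σ')))) := by
    unfold tf
    rw [act_act, act_act]
    refine act_congr W (fun x => ?_) _
    show ΘF (ι (e (e.symm x))) = ΘF (ι x)
    rw [AlgEquiv.apply_symm_apply]
  have e2 : act W (rs F τ') (act W ΘF (idp W _ P)) =
      act W ΘF (act W (τ.toAlgHom.restrictScalars F) (idp W _ P)) := by
    rw [act_act, act_act]
    refine act_congr W (fun x => ?_) _
    show τ' (Θ x) = Θ (Θ.symm (τ' (Θ x)))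
    rw [RingEquiv.apply_symm_apply]
  rw [e1, e2]
  exact h4'

end tr

theorem sepE (L : Type) [Field L] [CharZero L] :
    ∃ Θ : AlgebraicClosure L ≃ₐ[L] Sep L, True := by
  haveI : IsAlgClosure L (Sep L) := IsSepClosure.isAlgClosure_of_perfectField L (Sep L)
  exact ⟨IsAlgClosure.equiv L _ _, trivial⟩

variable {F : Type} [Field F] [NumberField F] {W : WeierstrassCurve F}

lemma loc_fin (e : Sep F ≃ₐ[F] AlgebraicClosure F) {f : Pool.Agent.TH841.SH.D.Coch W}
    (v : HeightOneSpectrum (𝓞 F))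
    (h : Pool.Agent.TH841.SH.D.LocTriv W (v.adicCompletion F) f) :
    LocTriv (K := F) (F := F) W (Comp (𝓞 F) F v) (Sep (Comp (𝓞 F) F v))
      (tf W e (fun σ => idp W (AlgebraicClosure F) (f σ))) := by
  haveI : CharZero (v.adicCompletion F) :=
    charZero_of_injective_algebraMap (algebraMap F (v.adicCompletion F)).injective
  haveI : CharZero (Comp (𝓞 F) F v) := (inferInstance : CharZero (v.adicCompletion F))
  obtain ⟨Θ, -⟩ := sepE (Comp (𝓞 F) F v)
  exact loc_tr e (L := v.adicCompletion F) (L' := Comp (𝓞 F) F v) Θ.toRingEquiv (RingEquiv.refl _)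
    (fun x => Θ.commutes x) (fun x => rfl) h

lemma loc_real (e : Sep F ≃ₐ[F] AlgebraicClosure F) {f : Pool.Agent.TH841.SH.D.Coch W}
    (ρ : F →+* ℝ) (h : ∀ v : InfinitePlace F, Pool.Agent.TH841.SH.D.LocTriv W v.Completion f) :
    letI := ρ.toAlgebra
    LocTriv (K := F) (F := F) W ℝ (Sep ℝ)
      (tf W e (fun σ => idp W (AlgebraicClosure F) (f σ))) := by
  letI : Algebra F ℝ := ρ.toAlgebra
  set v : InfinitePlace F := InfinitePlace.mk ((algebraMap ℝ ℂ).comp ρ) with hv
  have hr : ComplexEmbedding.IsReal ((algebraMap ℝ ℂ).comp ρ) := by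
    rw [ComplexEmbedding.isReal_iff]
    ext x
    exact Complex.conj_ofReal _
  have hvr : v.IsReal := ⟨_, hr, rfl⟩
  let θ : v.Completion ≃+* ℝ := InfinitePlace.Completion.ringEquivRealOfIsReal hvr
  haveI : IsAlgClosure ℝ (Sep ℝ) := IsSepClosure.isAlgClosure_of_perfectField ℝ (Sep ℝ)
  let Θ : AlgebraicClosure v.Completion ≃+* Sep ℝ :=
    IsAlgClosure.equivOfEquiv (AlgebraicClosure v.Completion) (Sep ℝ) θ
  refine loc_tr e (L := v.Completion) (L' := ℝ) Θ θ
    (fun x => IsAlgClosure.equivOfEquiv_algebraMap _ _ _ x) (fun x => ?_) (h v)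
  have h1 : θ (algebraMap F v.Completion x) = InfinitePlace.embedding_of_isReal hvr x :=
    InfinitePlace.Completion.extensionEmbeddingOfIsReal_coe hvr ((WithAbs.equiv v.1).symm x)
  rw [h1]
  have h2 : ((InfinitePlace.embedding_of_isReal hvr x : ℝ) : ℂ) = ((ρ x : ℝ) : ℂ) := by
    rw [InfinitePlace.embedding_of_isReal_apply, hv,
      InfinitePlace.embedding_mk_eq_of_isReal hr]
    rfl
  exact_mod_cast h2

/-- **No elements of order two in the Tate-Shafarevich group.** -/
theorem sha_of_shaC (hW : ShaC W) (s : Pool.Agent.TH841.NF.D.Sha W) (hs : 2 • s = 0) : s = 0 := by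
  obtain ⟨f, rfl⟩ := QuotientAddGroup.mk_surjective
    (s := (Pool.Agent.TH841.SH.D.cob W).addSubgroupOf
      (Pool.Agent.TH841.NF.D.shaCoc W)) s
  have h2 : (QuotientAddGroup.mk (2 • f) : (Pool.Agent.TH841.NF.D.shaCoc W) ⧸
    (Pool.Agent.TH841.SH.D.cob W).addSubgroupOf
      (Pool.Agent.TH841.NF.D.shaCoc W)) = 0 := hs
  rw [QuotientAddGroup.eq_zero_iff, AddSubgroup.mem_addSubgroupOf] at h2
  obtain ⟨P, hP⟩ := h2
  have hP' : ∀ σ, f.1 σ + f.1 σ = Pool.Agent.TH841.SH.D.act W σ.toAlgHom P - P := by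
    intro σ
    rw [← hP σ, two_nsmul]
    rfl
  obtain ⟨Θ, -⟩ := sepE F
  let e : Sep F ≃ₐ[F] AlgebraicClosure F := Θ.symm
  have nat : ∀ (σ : AlgebraicClosure F ≃ₐ[F] AlgebraicClosure F)
      (R : Pool.Agent.TH841.SH.D.Pt W (AlgebraicClosure F)),
      idp W (AlgebraicClosure F) (Pool.Agent.TH841.SH.D.act W σ.toAlgHom R) =
        act W (ak σ) (idp W (AlgebraicClosure F) R) := fun σ R => rfl
  let g : (AlgebraicClosure F ≃ₐ[F] AlgebraicClosure F) → Pt W (AlgebraicClosure F) :=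
    fun σ => idp W (AlgebraicClosure F) (f.1 σ)
  have hgm : ∀ σ τ, g (σ * τ) = g σ + act W (ak σ) (g τ) := by
    intro σ τ
    show idp W (AlgebraicClosure F) (f.1 (σ * τ)) = idp W (AlgebraicClosure F) (f.1 σ) +
      act W (ak σ) (idp W (AlgebraicClosure F) (f.1 τ))
    rw [f.2.1.2, map_add, nat]
  have hglc : IsLocallyConstant g := f.2.1.1.comp _
  have hrs : ∀ σ : Sep F ≃ₐ[F] Sep F, rs F σ = ak σ := fun σ => rfl
  have hcoc : IsCoc W (tf W e g) := ⟨tf_lc W e hglc, fun σ τ => by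
    rw [tf_mul W e hgm]; rfl⟩
  have hloc : IsLoc W (tf W e g) := ⟨fun w => loc_fin e w (f.2.2.1 w),
    fun ρ => loc_real e ρ f.2.2.2⟩
  have hdiv : ∃ (n : ℕ) (Q : Pt W (Sep F)), ∀ σ : Sep F ≃ₐ[F] Sep F,
      2 ^ n • tf W e g σ = act W (rs F σ) Q - Q := by
    refine ⟨1, act W (eh e.symm) (idp W _ P), fun σ => ?_⟩
    have h3 : g (e.autCongr σ) + g (e.autCongr σ) =
        act W (ak (e.autCongr σ)) (idp W _ P) - idp W _ P := by
      show idp W _ (f.1 (e.autCongr σ)) + idp W _ (f.1 (e.autCongr σ)) = _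
      rw [← map_add, hP', map_sub, nat]
    rw [pow_one, two_nsmul]
    show act W (eh e.symm) (g (e.autCongr σ)) + act W (eh e.symm) (g (e.autCongr σ)) = _
    rw [← map_add, h3, map_sub, act_act, act_act]
    congr 1
    refine act_congr W (fun x => ?_) _
    show e.symm (e (σ (e.symm x))) = σ (e.symm x)
    rw [AlgEquiv.symm_apply_apply]
  obtain ⟨Q, hQ⟩ := hW (tf W e g) hcoc hloc hdiv
  have h3 := tf_cob W e (g := g) (T := Q) (fun σ => hQ σ)
  obtain ⟨R, hR⟩ := idp_surj W (AlgebraicClosure F) (act W (eh e) Q)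
  have h4 : f ∈ (Pool.Agent.TH841.SH.D.cob W).addSubgroupOf
      (Pool.Agent.TH841.NF.D.shaCoc W) := by
    rw [AddSubgroup.mem_addSubgroupOf]
    refine ⟨R, fun σ => ?_⟩
    apply idp_inj W (AlgebraicClosure F)
    rw [map_sub, nat, hR]
    exact h3 σ
  exact (QuotientAddGroup.eq_zero_iff f).2 h4

end Pool.Agent.P8H4.PX
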