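import Pool.Agent.P8H4.PX.Gf
import Pool.Agent.N61.PF.Fin1

/-!
# The conditions at the small prime ideals, for elliptic curves

We need in addition that the curve `y ^ 2 = x ^ 3 + a x + b` has no points with singular reduction at the
primes over `2`.
-/

set_option autoImplicit false

open Polynomial NumberField IsDedekindDomain

namespace Pool.Agent.P8H4.PX

open Pool.Agent.N352.PF (rv)
open Pool.Agent.N61.PF (pol pol_natDegree pol_monic pol_coeff0 pol_coeff1 pol_coeff2)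

section

variable {F : Type} [Field F] [NumberField F]

/-- the condition at a prime over `2`: the singular point `(x, y)` of the reduction of
`y ^ 2 = x ^ 3 + a x + b` does not lift modulo `v ^ 2` -/
def TwoCond (v : HeightOneSpectrum (𝓞 F)) (a b : 𝓞 F) : Prop :=
  ∃ x y : 𝓞 F, x ^ 2 - a ∈ v.asIdeal ∧ y ^ 2 - (x ^ 3 + a * x + b) ∈ v.asIdeal ∧
    y ^ 2 - (x ^ 3 + a * x + b) ∉ v.asIdeal ^ 2

theorem TwoCond.congr {v : HeightOneSpectrum (𝓞 F)} {a b a' b' : 𝓞 F} (h : TwoCond v a b)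
    (ha : a - a' ∈ v.asIdeal ^ 2) (hb : b - b' ∈ v.asIdeal ^ 2) : TwoCond v a' b' := by
  obtain ⟨x, y, h1, h2, h3⟩ := h
  have hle : v.asIdeal ^ 2 ≤ v.asIdeal := Ideal.pow_le_self two_ne_zero
  have e : y ^ 2 - (x ^ 3 + a' * x + b') = (y ^ 2 - (x ^ 3 + a * x + b)) +
      (x * (a - a') + (b - b')) := by ring
  have hd : x * (a - a') + (b - b') ∈ v.asIdeal ^ 2 :=
    Ideal.add_mem _ (Ideal.mul_mem_left _ _ ha) hb
  refine ⟨x, y, ?_, ?_, ?_⟩
  · have e1 : x ^ 2 - a' = (x ^ 2 - a) + (a - a') := by ring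
    rw [e1]
    exact v.asIdeal.add_mem h1 (hle ha)
  · rw [e]
    exact v.asIdeal.add_mem h2 (hle hd)
  · rw [e]
    intro h4
    exact h3 ((Ideal.add_mem_iff_left _ hd).1 h4)

theorem exists_sq {k : Type} [Field k] [Finite k] (h2 : (2 : k) = 0) (a : k) : ∃ x, x ^ 2 = a := by
  have hc : CharP k 2 := CharTwo.of_one_ne_zero_of_two_eq_zero one_ne_zero h2
  obtain ⟨x, hx⟩ := (bijective_frobenius k 2).2 a
  exact ⟨x, hx⟩

theorem rv_pol (v : HeightOneSpectrum (𝓞 F)) (a b : 𝓞 F) : rv v (pol a b) =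
    X ^ 3 + C (Ideal.Quotient.mk v.asIdeal a) * X + C (Ideal.Quotient.mk v.asIdeal b) := by
  simp [rv, pol]

/-- one prime ideal -/
theorem exists_v1 (v : HeightOneSpectrum (𝓞 F)) : ∃ a b : 𝓞 F, (rv v (pol a b)).Separable ∧
    ((3 : 𝓞 F) ∉ v.asIdeal → Irreducible (rv v (pol a b))) ∧
    ((2 : 𝓞 F) ∈ v.asIdeal → TwoCond v a b) := by
  obtain ⟨f, h1, h2, h3, h4, h5⟩ := exists_v F 1 le_rfl v
  obtain ⟨a, ha⟩ := Ideal.Quotient.mk_surjective (f.coeff 1)
  obtain ⟨b, hb⟩ := Ideal.Quotient.mk_surjective (f.coeff 0)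
  have hf : ∀ b' : 𝓞 F, b' - b ∈ v.asIdeal → rv v (pol a b') = f := by
    intro b' hb'
    have hbb : Ideal.Quotient.mk v.asIdeal b' = f.coeff 0 := by
      rw [← hb]
      exact Ideal.Quotient.eq.2 hb'
    rw [rv_pol, ha, hbb]
    conv_rhs => rw [h1.as_sum, h2]
    simp only [Finset.sum_range_succ, Finset.range_zero, Finset.sum_empty]
    have e2 : f.coeff 2 = 0 := h3
    norm_num [e2]
    ring
  have h3' : (3 : 𝓞 F) ∉ v.asIdeal → Irreducible f := by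
    intro h
    apply h5
    have e : ((2 * 1 + 1 : ℕ) : 𝓞 F) = 3 := by norm_num
    rwa [e]
  by_cases h2v : (2 : 𝓞 F) ∈ v.asIdeal
  · have hmax : v.asIdeal.IsMaximal := v.isMaximal
    let i1 : Field (𝓞 F ⧸ v.asIdeal) := Ideal.Quotient.field v.asIdeal
    have hfin : Finite (𝓞 F ⧸ v.asIdeal) := Ideal.finiteQuotientOfFreeOfNeBot v.asIdeal v.ne_bot
    have h20 : (2 : 𝓞 F ⧸ v.asIdeal) = 0 := by
      have := Ideal.Quotient.eq_zero_iff_mem.2 h2v
      rwa [map_ofNat] at this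
    obtain ⟨x', hx'⟩ := exists_sq h20 (Ideal.Quotient.mk v.asIdeal a)
    obtain ⟨x, rfl⟩ := Ideal.Quotient.mk_surjective x'
    obtain ⟨y', hy'⟩ := exists_sq h20 (Ideal.Quotient.mk v.asIdeal (x ^ 3 + a * x + b))
    obtain ⟨y, rfl⟩ := Ideal.Quotient.mk_surjective y'
    have hx : x ^ 2 - a ∈ v.asIdeal := by
      rw [← map_pow] at hx'
      exact Ideal.Quotient.eq.1 hx'
    have hy : y ^ 2 - (x ^ 3 + a * x + b) ∈ v.asIdeal := by
      rw [← map_pow] at hy'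
      exact Ideal.Quotient.eq.1 hy'
    by_cases hc : y ^ 2 - (x ^ 3 + a * x + b) ∈ v.asIdeal ^ 2
    · obtain ⟨π, hπ, hπ2⟩ : ∃ π ∈ v.asIdeal, π ∉ v.asIdeal ^ 2 := by
        by_contra hcon
        push Not at hcon
        have hne : v.asIdeal ^ 2 ≠ v.asIdeal := by
          have h6 := Ideal.pow_right_strictAnti v.asIdeal v.ne_bot v.isPrime.ne_top
            (show (1 : ℕ) < 2 by norm_num)
          have h7 := h6.ne
          simpa using h7
        exact hne (le_antisymm (Ideal.pow_le_self two_ne_zero) hcon)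
      refine ⟨a, b + π, ?_, fun h => ?_, fun _ => ⟨x, y, hx, ?_, ?_⟩⟩
      · rw [hf (b + π) (by rwa [add_sub_cancel_left])]
        exact h4
      · rw [hf (b + π) (by rwa [add_sub_cancel_left])]
        exact h3' h
      · have e : y ^ 2 - (x ^ 3 + a * x + (b + π)) = (y ^ 2 - (x ^ 3 + a * x + b)) - π := by ring
        rw [e]
        exact v.asIdeal.sub_mem hy hπ
      · have e : y ^ 2 - (x ^ 3 + a * x + (b + π)) = (y ^ 2 - (x ^ 3 + a * x + b)) - π := by ring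
        rw [e]
        intro h
        apply hπ2
        have h7 := Ideal.sub_mem _ hc h
        rwa [sub_sub_cancel] at h7
    · refine ⟨a, b, ?_, fun h => ?_, fun _ => ⟨x, y, hx, hy, hc⟩⟩
      · rw [hf b (by rw [sub_self]; exact v.asIdeal.zero_mem)]
        exact h4
      · rw [hf b (by rw [sub_self]; exact v.asIdeal.zero_mem)]
        exact h3' h
  · refine ⟨a, b, ?_, fun h => ?_, fun h => absurd h h2v⟩
    · rw [hf b (by rw [sub_self]; exact v.asIdeal.zero_mem)]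
      exact h4
    · rw [hf b (by rw [sub_self]; exact v.asIdeal.zero_mem)]
      exact h3' h

end

/-- the polynomial and the modulus -/
theorem gf1 (F : Type) [Field F] [NumberField F] (M : ℕ) :
    ∃ (W : ℕ) (f₁ : (𝓞 F)[X]), f₁.Monic ∧ f₁.natDegree = 3 ∧ f₁.coeff 2 = 0 ∧ 0 < W ∧
      4 ∣ W ∧ (∀ v : HeightOneSpectrum (𝓞 F), (2 : 𝓞 F) ∈ v.asIdeal → Irreducible (rv v f₁)) ∧
      (∀ v : HeightOneSpectrum (𝓞 F), (W : 𝓞 F) ∈ v.asIdeal → (rv v f₁).Separable) ∧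
      (∀ p : ℕ, p.Prime → p ≤ M → p ∣ W) ∧
      (∀ v : HeightOneSpectrum (𝓞 F), (W : 𝓞 F) ∈ v.asIdeal →
        (3 : 𝓞 F) ∉ v.asIdeal → Irreducible (rv v f₁)) ∧
      ∀ v : HeightOneSpectrum (𝓞 F), (2 : 𝓞 F) ∈ v.asIdeal →
        TwoCond v (f₁.coeff 1) (f₁.coeff 0) := by
  classical
  set W : ℕ := 2 * primorial (max M 2) with hW
  have hWp0 : ∀ p : ℕ, p.Prime → p ≤ max M 2 → p ∣ primorial (max M 2) := fun p hp h =>
    (hp.dvd_primorial_iff).mpr h
  have hWp : ∀ p : ℕ, p.Prime → p ≤ max M 2 → p ∣ W := fun p hp h =>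
    (hWp0 p hp h).mul_left _
  have hW0 : 0 < W := Nat.mul_pos two_pos (primorial_pos _)
  have h4W : 4 ∣ W := by
    obtain ⟨m, hm⟩ := hWp0 2 Nat.prime_two (le_max_right _ _)
    exact ⟨m, by rw [hW, hm]; ring⟩
  choose a b hs hi ht using exists_v1 (F := F)
  have hWne : Ideal.span {(W : 𝓞 F)} ≠ 0 := by
    rw [Ne, Ideal.zero_eq_bot, Ideal.span_singleton_eq_bot]
    exact_mod_cast hW0.ne'
  have hfinS := Ideal.finite_factors hWne
  set T : Finset (HeightOneSpectrum (𝓞 F)) := hfinS.toFinset with hT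
  have hmem : ∀ v : HeightOneSpectrum (𝓞 F), (W : 𝓞 F) ∈ v.asIdeal → v ∈ T := by
    intro v hv
    rw [hT, Set.Finite.mem_toFinset]
    show v.asIdeal ∣ Ideal.span {(W : 𝓞 F)}
    rw [Ideal.dvd_span_singleton]
    exact hv
  have hcrt : ∀ x : HeightOneSpectrum (𝓞 F) → 𝓞 F, ∃ y : 𝓞 F, ∀ v ∈ T,
      y - x v ∈ v.asIdeal ^ 2 := by
    intro x
    obtain ⟨y, hy⟩ := IsDedekindDomain.exists_forall_sub_mem_ideal (s := T)
      (fun v => v.asIdeal) (fun _ => 2) (fun v _ => v.prime)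
      (fun v _ w _ hvw h => hvw (HeightOneSpectrum.ext h)) (fun v => x v)
    exact ⟨y, fun v hv => hy v hv⟩
  obtain ⟨a₁, ha₁⟩ := hcrt a
  obtain ⟨b₁, hb₁⟩ := hcrt b
  have hle : ∀ v : HeightOneSpectrum (𝓞 F), v.asIdeal ^ 2 ≤ v.asIdeal := fun v =>
    Ideal.pow_le_self two_ne_zero
  have hmap : ∀ v ∈ T, rv v (pol a₁ b₁) = rv v (pol (a v) (b v)) := by
    intro v hv
    rw [rv_pol, rv_pol, Ideal.Quotient.eq.2 (hle v (ha₁ v hv)),
      Ideal.Quotient.eq.2 (hle v (hb₁ v hv))]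
  have h2W : ∀ v : HeightOneSpectrum (𝓞 F), (2 : 𝓞 F) ∈ v.asIdeal → (W : 𝓞 F) ∈ v.asIdeal := by
    intro v hv
    obtain ⟨m, hm⟩ := h4W
    have e : (W : 𝓞 F) = ((2 * m : ℕ) : 𝓞 F) * 2 := by
      rw [hm]; push_cast; ring
    rw [e]
    exact Ideal.mul_mem_left _ _ hv
  have h23 : ∀ v : HeightOneSpectrum (𝓞 F), (2 : 𝓞 F) ∈ v.asIdeal → (3 : 𝓞 F) ∉ v.asIdeal := by
    intro v h2 h3
    refine v.isPrime.ne_top ((Ideal.eq_top_iff_one _).2 ?_)
    have e : (1 : 𝓞 F) = 3 - 2 := by norm_num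
    rw [e]
    exact v.asIdeal.sub_mem h3 h2
  refine ⟨W, pol a₁ b₁, pol_monic _ _, pol_natDegree _ _, pol_coeff2 _ _, hW0, h4W, ?_, ?_,
    fun p hp hpM => hWp p hp (hpM.trans (le_max_left _ _)), ?_, ?_⟩
  · intro v hv
    rw [hmap v (hmem v (h2W v hv))]
    exact hi v (h23 v hv)
  · intro v hv
    rw [hmap v (hmem v hv)]
    exact hs v
  · intro v hv h3
    rw [hmap v (hmem v hv)]
    exact hi v h3
  · intro v hv
    have hvT := hmem v (h2W v hv)
    rw [pol_coeff1, pol_coeff0]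
    refine (ht v hv).congr ?_ ?_
    · rw [← neg_sub]
      exact (Ideal.neg_mem_iff _).2 (ha₁ v hvT)
    · rw [← neg_sub]
      exact (Ideal.neg_mem_iff _).2 (hb₁ v hvT)

end Pool.Agent.P8H4.PX
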