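import Pool.Agent.P8H17.UL.Stm2
import Pool.Agent.P8H4.PX.Gf1

/-!
# Equations for which all local points have nonsingular reduction
-/

set_option autoImplicit false
set_option linter.unusedSectionVars false

open NumberField IsDedekindDomain WeierstrassCurve WithZero

namespace Pool.Agent.P8H4.PX

open Pool.Agent.P8H17.UL
open Pool.Agent.Y852.GS (G0 lt_one_exp vv near)

section

variable {F : Type} [Field F] [NumberField F]

/-- no point modulo `v²` is singular modulo `v` -/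
def NoS (W : WeierstrassCurve (𝓞 F)) (v : HeightOneSpectrum (𝓞 F)) : Prop :=
  ∀ a b : 𝓞 F, b ^ 2 + W.a₁ * a * b + W.a₃ * b - (a ^ 3 + W.a₂ * a ^ 2 + W.a₄ * a + W.a₆) ∈
      v.asIdeal ^ 2 →
    W.a₁ * b - (3 * a ^ 2 + 2 * W.a₂ * a + W.a₄) ∈ v.asIdeal →
    2 * b + W.a₁ * a + W.a₃ ∈ v.asIdeal → False

lemma disc_mem {R : Type} [CommRing R] {W : WeierstrassCurve R} {I : Ideal R}
    (h3 : W.a₃ ∈ I) (h4 : W.a₄ ∈ I) (h6 : W.a₆ ∈ I ^ 2) : W.Δ ∈ I ^ 2 := by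
  have mul2 : ∀ x y : R, x ∈ I → y ∈ I → x * y ∈ I ^ 2 := fun x y hx hy => by
    rw [pow_two]
    exact Ideal.mul_mem_mul hx hy
  have b4 : W.b₄ ∈ I := by
    unfold WeierstrassCurve.b₄
    exact add_mem (Ideal.mul_mem_left _ _ h4) (Ideal.mul_mem_left _ _ h3)
  have b6 : W.b₆ ∈ I ^ 2 := by
    unfold WeierstrassCurve.b₆
    exact add_mem (by rw [pow_two W.a₃]; exact mul2 _ _ h3 h3) (Ideal.mul_mem_left _ _ h6)
  have b8 : W.b₈ ∈ I ^ 2 := by
    have e : W.b₈ = W.a₁ ^ 2 * W.a₆ + 4 * W.a₂ * W.a₆ - W.a₁ * (W.a₃ * W.a₄) +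
        W.a₂ * (W.a₃ * W.a₃) - W.a₄ * W.a₄ := by
      unfold WeierstrassCurve.b₈
      ring
    rw [e]
    refine sub_mem (add_mem (sub_mem (add_mem ?_ ?_) ?_) ?_) ?_
    · exact Ideal.mul_mem_left _ _ h6
    · exact Ideal.mul_mem_left _ _ h6
    · exact Ideal.mul_mem_left _ _ (mul2 _ _ h3 h4)
    · exact Ideal.mul_mem_left _ _ (mul2 _ _ h3 h3)
    · exact mul2 _ _ h4 h4
  have e : W.Δ = -W.b₂ ^ 2 * W.b₈ - 8 * W.b₄ * (W.b₄ * W.b₄) - 27 * W.b₆ * W.b₆ +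
      9 * W.b₂ * W.b₄ * W.b₆ := by
    unfold WeierstrassCurve.Δ
    ring
  rw [e]
  refine add_mem (sub_mem (sub_mem ?_ ?_) ?_) ?_
  · exact Ideal.mul_mem_left _ _ b8
  · exact Ideal.mul_mem_left _ _ (mul2 _ _ b4 b4)
  · exact Ideal.mul_mem_left _ _ b6
  · exact Ideal.mul_mem_left _ _ b6

/-- the discriminant and a singular point -/
theorem noS_of_disc {W : WeierstrassCurve (𝓞 F)} {v : HeightOneSpectrum (𝓞 F)}
    (h : W.Δ ∉ v.asIdeal ^ 2) : NoS W v := by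
  intro a b h6 h4 h3
  apply h
  set D : VariableChange (𝓞 F) := ⟨1, a, 0, b⟩ with hD
  have hΔ : (D • W).Δ = W.Δ := by
    rw [variableChange_Δ]
    simp [hD]
  rw [← hΔ]
  apply disc_mem
  · have e : (D • W).a₃ = 2 * b + W.a₁ * a + W.a₃ := by
      rw [variableChange_a₃]
      simp only [hD, inv_one, Units.val_one]
      ring
    rw [e]
    exact h3
  · have e : (D • W).a₄ = -(W.a₁ * b - (3 * a ^ 2 + 2 * W.a₂ * a + W.a₄)) := by
      rw [variableChange_a₄]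
      simp only [hD, inv_one, Units.val_one]
      ring
    rw [e]
    exact neg_mem h4
  · have e : (D • W).a₆ = -(b ^ 2 + W.a₁ * a * b + W.a₃ * b -
        (a ^ 3 + W.a₂ * a ^ 2 + W.a₄ * a + W.a₆)) := by
      rw [variableChange_a₆]
      simp only [hD, inv_one, Units.val_one]
      ring
    rw [e]
    exact neg_mem h6

/-- the condition at the primes over two -/
theorem noS_of_two {v : HeightOneSpectrum (𝓞 F)} (h2 : (2 : 𝓞 F) ∈ v.asIdeal) {A B : 𝓞 F}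
    (h : TwoCond v A B) : NoS ⟨0, 0, 0, A, B⟩ v := by
  intro a b h6 h4 h3
  obtain ⟨x, y, hx, hy, hxy⟩ := h
  simp only [zero_mul, mul_zero, add_zero, zero_sub] at h6 h4
  have hpr := v.isPrime
  have t2 : ∀ z : 𝓞 F, 2 * z ∈ v.asIdeal := fun z => Ideal.mul_mem_right _ _ h2
  have ha : x - a ∈ v.asIdeal := by
    have e : (x - a) ^ 2 = (x ^ 2 - A) + -(3 * a ^ 2 + A) + 2 * (A + 2 * a ^ 2 - x * a) := by ring
    have h5 : (x - a) ^ 2 ∈ v.asIdeal := by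
      rw [e]
      exact add_mem (add_mem hx h4) (t2 _)
    exact hpr.mem_of_pow_mem 2 h5
  have hle : v.asIdeal ^ 2 ≤ v.asIdeal := Ideal.pow_le_self two_ne_zero
  have mul2 : ∀ x y : 𝓞 F, x ∈ v.asIdeal → y ∈ v.asIdeal → x * y ∈ v.asIdeal ^ 2 :=
    fun x y hx hy => by
      rw [pow_two]
      exact Ideal.mul_mem_mul hx hy
  -- the values of the cubic
  have hf : (x ^ 3 + A * x + B) - (a ^ 3 + A * a + B) ∈ v.asIdeal ^ 2 := by
    have e : (x ^ 3 + A * x + B) - (a ^ 3 + A * a + B) =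
        (x - a) * (x ^ 2 + x * a + a ^ 2 + A) := by ring
    rw [e]
    apply mul2 _ _ ha
    have e2 : x ^ 2 + x * a + a ^ 2 + A = (x - a) * (x + 2 * a) + -(-(3 * a ^ 2 + A)) := by ring
    rw [e2]
    exact add_mem (Ideal.mul_mem_right _ _ ha) (neg_mem h4)
  have hb : y - b ∈ v.asIdeal := by
    have e : (y - b) ^ 2 = (y ^ 2 - (x ^ 3 + A * x + B)) -
        (b ^ 2 - (a ^ 3 + A * a + B)) + ((x ^ 3 + A * x + B) - (a ^ 3 + A * a + B)) +
        2 * (b ^ 2 - y * b) := by ring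
    have h5 : (y - b) ^ 2 ∈ v.asIdeal := by
      rw [e]
      exact add_mem (add_mem (sub_mem hy (hle h6)) (hle hf)) (t2 _)
    exact hpr.mem_of_pow_mem 2 h5
  apply hxy
  have e : y ^ 2 - (x ^ 3 + A * x + B) = (y - b) * ((y - b) + 2 * b) +
      (b ^ 2 - (a ^ 3 + A * a + B)) - ((x ^ 3 + A * x + B) - (a ^ 3 + A * a + B)) := by ring
  rw [e]
  exact sub_mem (add_mem (mul2 _ _ hb (add_mem hb (t2 _))) h6) hf

section cp

variable (v : HeightOneSpectrum (𝓞 F))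

/-- the map to the completion -/
noncomputable abbrev cm : 𝓞 F →+* v.adicCompletion F :=
  (algebraMap F (v.adicCompletion F)).comp (algebraMap (𝓞 F) F)

lemma cm_val (a : 𝓞 F) : (Valued.v (cm v a) : G0) = v.intValuation a := by
  show (Valued.v (algebraMap F (v.adicCompletion F) (algebraMap (𝓞 F) F a)) : G0) = _
  rw [vv, v.valuation_of_algebraMap]

lemma cm_le (a : 𝓞 F) : (Valued.v (cm v a) : G0) ≤ 1 := by
  rw [cm_val]
  exact v.intValuation_le_one a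

lemma cm_sq {a : 𝓞 F} : (Valued.v (cm v a) : G0) ≤ exp (-(2 : ℤ)) ↔ a ∈ v.asIdeal ^ 2 := by
  rw [cm_val]
  exact v.intValuation_le_pow_iff_mem a 2

lemma cm_one {a : 𝓞 F} : (Valued.v (cm v a) : G0) < 1 ↔ a ∈ v.asIdeal := by
  rw [cm_val, v.intValuation_lt_one_iff_mem]

lemma exp_two_lt : exp (-(2 : ℤ)) < (1 : G0) := by
  rw [← exp_zero, exp_lt_exp]; norm_num

/-- approximation -/
lemma cm_near {z : v.adicCompletion F} (hz : (Valued.v z : G0) ≤ 1) :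
    ∃ a : 𝓞 F, (Valued.v (z - cm v a) : G0) ≤ exp (-(2 : ℤ)) := by
  obtain ⟨x, hx⟩ := near v z 2
  have hx1 : v.valuation F x ≤ 1 := by
    rw [← vv]
    have e : algebraMap F (v.adicCompletion F) x = z - (z - algebraMap F (v.adicCompletion F) x) := by
      ring
    rw [e]
    exact (Valuation.map_sub _ _ _).trans (max_le hz (hx.trans exp_two_lt.le))
  obtain ⟨a, ha⟩ := v.exists_valuation_sub_lt_of_integer (K := F) hx1
    (Units.mk0 (exp (-(2 : ℤ))) exp_ne_zero)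
  refine ⟨a, ?_⟩
  have e : z - cm v a = (z - algebraMap F (v.adicCompletion F) x) -
      algebraMap F (v.adicCompletion F) (algebraMap (𝓞 F) F a - x) := by
    rw [map_sub]
    show z - algebraMap F (v.adicCompletion F) (algebraMap (𝓞 F) F a) = _
    ring
  rw [e]
  refine (Valuation.map_sub _ _ _).trans (max_le hx ?_)
  rw [vv]
  exact ha.le

end cp

section core

/-- a point over a valued field with nonsingular reduction -/
theorem core {K : Type} [Field K] (u : Valuation K G0) {R : Type} [CommRing R] (φ : R →+* K)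
    (I : Ideal R) (e2 : G0) (he : e2 < 1) (hle : ∀ a, u (φ a) ≤ 1) (hI : ∀ a, u (φ a) < 1 → a ∈ I)
    (hI2 : ∀ a, u (φ a) ≤ e2 → a ∈ I ^ 2) (hnear : ∀ z, u z ≤ 1 → ∃ a, u (z - φ a) ≤ e2)
    (W : WeierstrassCurve R)
    (h : ∀ a b : R, b ^ 2 + W.a₁ * a * b + W.a₃ * b -
        (a ^ 3 + W.a₂ * a ^ 2 + W.a₄ * a + W.a₆) ∈ I ^ 2 →
      W.a₁ * b - (3 * a ^ 2 + 2 * W.a₂ * a + W.a₄) ∈ I → 2 * b + W.a₁ * a + W.a₃ ∈ I → False)
    (x y : K) (heq : y ^ 2 + φ W.a₁ * x * y + φ W.a₃ * y =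
      x ^ 3 + φ W.a₂ * x ^ 2 + φ W.a₄ * x + φ W.a₆) :
    1 < u x ∨ u (φ W.a₁ * y - (3 * x ^ 2 + 2 * φ W.a₂ * x + φ W.a₄)) = 1 ∨
      u (2 * y + φ W.a₁ * x + φ W.a₃) = 1 := by
  by_contra hcon
  push Not at hcon
  obtain ⟨hx, n4, n3⟩ := hcon
  have v1 := hle W.a₁
  have v2 := hle W.a₂
  have v3 := hle W.a₃
  have v4 := hle W.a₄
  have v6 := hle W.a₆
  have hm : ∀ z w : K, u z ≤ 1 → u w ≤ 1 → u (z * w) ≤ 1 := fun z w hz hw => by
    rw [map_mul]
    exact mul_le_one' hz hw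
  have ha : ∀ z w : K, u z ≤ 1 → u w ≤ 1 → u (z + w) ≤ 1 := fun z w hz hw =>
    (Valuation.map_add _ _ _).trans (max_le hz hw)
  have hs : ∀ z w : K, u z ≤ 1 → u w ≤ 1 → u (z - w) ≤ 1 := fun z w hz hw =>
    (Valuation.map_sub _ _ _).trans (max_le hz hw)
  have h2 : u 2 ≤ 1 := by
    have := hle 2
    rwa [map_ofNat] at this
  have h3 : u 3 ≤ 1 := by
    have := hle 3
    rwa [map_ofNat] at this
  have hpow : ∀ (z : K) (n : ℕ), u z ≤ 1 → u (z ^ n) ≤ 1 := fun z n hz => by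
    rw [map_pow]
    exact pow_le_one₀ zero_le hz
  -- `y` is integral
  have hy : u y ≤ 1 := by
    by_contra hy
    rw [not_le] at hy
    have h5 : u (φ W.a₁ * x + φ W.a₃) ≤ 1 := ha _ _ (hm _ _ v1 hx) v3
    have h6 : u (y + (φ W.a₁ * x + φ W.a₃)) = u y :=
      Valuation.map_add_eq_of_lt_left _ (h5.trans_lt hy)
    have h7 : u (y * (y + (φ W.a₁ * x + φ W.a₃))) ≤ 1 := by
      have e : y * (y + (φ W.a₁ * x + φ W.a₃)) =
          x ^ 3 + φ W.a₂ * x ^ 2 + φ W.a₄ * x + φ W.a₆ := by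
        rw [← heq]; ring
      rw [e]
      exact ha _ _ (ha _ _ (ha _ _ (hpow _ _ hx) (hm _ _ v2 (hpow _ _ hx))) (hm _ _ v4 hx)) v6
    rw [map_mul, h6] at h7
    have h8 : (1 : G0) < u y * u y := by
      calc (1 : G0) = 1 * 1 := (one_mul 1).symm
        _ < _ := mul_lt_mul'' hy hy zero_le zero_le
    exact absurd h7 (not_le.2 h8)
  have l4 : u (φ W.a₁ * y - (3 * x ^ 2 + 2 * φ W.a₂ * x + φ W.a₄)) < 1 :=
    lt_of_le_of_ne (hs _ _ (hm _ _ v1 hy) (ha _ _ (ha _ _ (hm _ _ h3 (hpow _ _ hx))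
      (hm _ _ (hm _ _ h2 v2) hx)) v4)) n4
  have l3 : u (2 * y + φ W.a₁ * x + φ W.a₃) < 1 :=
    lt_of_le_of_ne (ha _ _ (ha _ _ (hm _ _ h2 hy) (hm _ _ v1 hx)) v3) n3
  obtain ⟨a, hax⟩ := hnear _ hx
  obtain ⟨b, hby⟩ := hnear _ hy
  have ca : u (φ a) ≤ 1 := hle a
  have cb : u (φ b) ≤ 1 := hle b
  have hml : ∀ z w : K, u z ≤ e2 → u w ≤ 1 → u (z * w) ≤ e2 := fun z w hz hw => by
    rw [map_mul]
    exact (mul_le_mul' hz hw).trans (mul_one _).le
  have hal : ∀ z w : K, u z ≤ e2 → u w ≤ e2 → u (z + w) ≤ e2 :=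
    fun z w hz hw => (Valuation.map_add _ _ _).trans (max_le hz hw)
  have hsl : ∀ z w : K, u z ≤ e2 → u w ≤ e2 → u (z - w) ≤ e2 :=
    fun z w hz hw => (Valuation.map_sub _ _ _).trans (max_le hz hw)
  refine h a b ?_ ?_ ?_
  · apply hI2
    simp only [map_sub, map_add, map_mul, map_pow]
    have e : φ b ^ 2 + φ W.a₁ * φ a * φ b + φ W.a₃ * φ b -
        (φ a ^ 3 + φ W.a₂ * φ a ^ 2 + φ W.a₄ * φ a + φ W.a₆) =
        (x - φ a) * (x ^ 2 + x * φ a + φ a ^ 2 + φ W.a₂ * (x + φ a) + φ W.a₄ - φ W.a₁ * y) -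
        (y - φ b) * (y + φ b + φ W.a₁ * φ a + φ W.a₃) := by
      linear_combination heq
    rw [e]
    refine hsl _ _ (hml _ _ hax ?_) (hml _ _ hby ?_)
    · exact hs _ _ (ha _ _ (ha _ _ (ha _ _ (ha _ _ (hpow _ _ hx) (hm _ _ hx ca)) (hpow _ _ ca))
        (hm _ _ v2 (ha _ _ hx ca))) v4) (hm _ _ v1 hy)
    · exact ha _ _ (ha _ _ (ha _ _ hy cb) (hm _ _ v1 ca)) v3
  · apply hI
    simp only [map_sub, map_add, map_mul, map_pow, map_ofNat]
    have e : φ W.a₁ * φ b - (3 * φ a ^ 2 + 2 * φ W.a₂ * φ a + φ W.a₄) =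
        (φ W.a₁ * y - (3 * x ^ 2 + 2 * φ W.a₂ * x + φ W.a₄)) +
        ((x - φ a) * (3 * (x + φ a) + 2 * φ W.a₂) - (y - φ b) * φ W.a₁) := by ring
    rw [e]
    refine (Valuation.map_add _ _ _).trans_lt (max_lt l4 (lt_of_le_of_lt ?_ he))
    exact hsl _ _ (hml _ _ hax (ha _ _ (hm _ _ h3 (ha _ _ hx ca)) (hm _ _ h2 v2))) (hml _ _ hby v1)
  · apply hI
    simp only [map_add, map_mul, map_ofNat]
    have e : 2 * φ b + φ W.a₁ * φ a + φ W.a₃ = (2 * y + φ W.a₁ * x + φ W.a₃) +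
        (0 - ((y - φ b) * 2 + (x - φ a) * φ W.a₁)) := by ring
    rw [e]
    refine (Valuation.map_add _ _ _).trans_lt (max_lt l3 (lt_of_le_of_lt ?_ he))
    refine hsl _ _ ?_ (hal _ _ (hml _ _ hby h2) (hml _ _ hax v1))
    rw [map_zero]
    exact zero_le

end core

lemma E0G_pt {W : WeierstrassCurve (𝓞 F)} {v : HeightOneSpectrum (𝓞 F)} (h : NoS W v)
    (x y : v.adicCompletion F) (hP : (cpl W v).toAffine.Equation x y) : (1 : G0) < Valued.v x ∨
      Valued.v ((cpl W v).a₁ * y - (3 * x ^ 2 + 2 * (cpl W v).a₂ * x + (cpl W v).a₄)) = (1 : G0) ∨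
      Valued.v (2 * y + (cpl W v).a₁ * x + (cpl W v).a₃) = (1 : G0) := by
  have e := (Affine.equation_iff _ _).1 hP
  exact core (Valued.v) (cm v) v.asIdeal (exp (-(2 : ℤ))) exp_two_lt (cm_le v)
    (fun a => (cm_one v).1) (fun a => (cm_sq v).1) (fun z => cm_near v) W h x y e

lemma E0G_top {W : WeierstrassCurve (𝓞 F)} {v : HeightOneSpectrum (𝓞 F)} (h : NoS W v)
    (P : Pt (cpl W v)) : P ∈ E0G W v := by
  rcases pt_cases P with rfl | ⟨x, y, hP, rfl⟩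
  · exact zero_mem _
  apply AddSubgroup.subset_closure
  intro x' y' h' _
  exact E0G_pt h x' y' h'.1

/-- **All local points have nonsingular reduction.** -/
theorem tnG_one {W : WeierstrassCurve (𝓞 F)} {v : HeightOneSpectrum (𝓞 F)} (h : NoS W v) :
    tnG W v = 1 := by
  unfold tnG
  rw [AddSubgroup.index_eq_one, eq_top_iff]
  intro P _
  exact E0G_top h P

end

end Pool.Agent.P8H4.PX
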