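import Pool.Agent.P8H4.PX.Fin
import Pool.Agent.P8H4.PX.NS
import Pool.Agent.P8H4.PX.Brg
import Pool.Agent.P8H4.PM.Up2
import Pool.Agent.P8H4.PM.UL
import Pool.Agent.P8H4.PL.Tam

/-!
# The curves of the family over extensions of 2-power degree
-/

set_option autoImplicit false
set_option linter.all false

open Polynomial IsDedekindDomain NumberField WeierstrassCurve
open scoped Classical

namespace Pool.Agent.P8H4.PX

open Pool.Agent.N783.PF
open Pool.Agent.P8H4.PL (Ram)
open Pool.Agent.P8H4.PK (P1 Spl InfCond pts redAt)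
open Pool.Agent.P8H4.PM (FinCond2 p1_up2)

section

variable {F : Type} [Field F] [NumberField F]

/-- the equation `y ^ 2 = x ^ 3 + A x + B` -/
def Wp (p : 𝓞 F × 𝓞 F) : WeierstrassCurve (𝓞 F) := ⟨0, 0, 0, p.1, p.2⟩

lemma Wp_Δ (p : 𝓞 F × 𝓞 F) : (Wp p).Δ = -16 * (4 * p.1 ^ 3 + 27 * p.2 ^ 2) := by
  unfold Wp WeierstrassCurve.Δ WeierstrassCurve.b₂ WeierstrassCurve.b₄ WeierstrassCurve.b₆
    WeierstrassCurve.b₈
  ring

/-- the reduced cubic -/
noncomputable def fv (p : 𝓞 F × 𝓞 F) (v : HeightOneSpectrum (𝓞 F)) : (𝓞 F ⧸ v.asIdeal)[X] :=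
  X ^ 3 + C (Ideal.Quotient.mk v.asIdeal p.1) * X + C (Ideal.Quotient.mk v.asIdeal p.2)

/-- a cubic without roots -/
lemma no_root {κ : Type} [Field κ] {a b : κ} (h : Irreducible (X ^ 3 + C a * X + C b)) (x : κ) :
    x ^ 3 + a * x + b ≠ 0 := by
  intro h0
  have hdeg : (X ^ 3 + C a * X + C b : κ[X]).natDegree = 3 := by compute_degree!
  have hr : (X ^ 3 + C a * X + C b : κ[X]).IsRoot x := by
    rw [Polynomial.IsRoot.def]
    simpa using h0
  have h1 := Polynomial.degree_eq_one_of_irreducible_of_root h hr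
  have h2 : (X ^ 3 + C a * X + C b : κ[X]).natDegree = 1 :=
    Polynomial.natDegree_eq_of_degree_eq_some h1
  rw [hdeg] at h2
  norm_num at h2

lemma disc_ne {κ : Type} [Field κ] (h6 : (6 : κ) ≠ 0) {a b : κ}
    (h : Irreducible (X ^ 3 + C a * X + C b)) : 4 * a ^ 3 + 27 * b ^ 2 ≠ 0 := by
  intro h0
  have h2 : (2 : κ) ≠ 0 := fun h => h6 (by
    have : (6 : κ) = 2 * 3 := by norm_num
    rw [this, h, zero_mul])
  have h3 : (3 : κ) ≠ 0 := fun h => h6 (by
    have : (6 : κ) = 2 * 3 := by norm_num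
    rw [this, h, mul_zero])
  by_cases ha : a = 0
  · rw [ha] at h0
    have h27 : (27 : κ) ≠ 0 := by
      have : (27 : κ) = 3 ^ 3 := by norm_num
      rw [this]
      exact pow_ne_zero _ h3
    have hb : b = 0 := by
      have h4 : (27 : κ) * b ^ 2 = 0 := by linear_combination h0
      rcases mul_eq_zero.1 h4 with h5 | h5
      · exact absurd h5 h27
      · exact pow_eq_zero_iff (two_ne_zero) |>.1 h5
    apply no_root h 0
    rw [hb]
    ring
  · apply no_root h (-3 * b / (2 * a))
    field_simp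
    have e : -(3 * b) ^ 3 - 3 * b * a * (2 * a) ^ 2 + b * (2 * a) ^ 3 =
        -b * (4 * a ^ 3 + 27 * b ^ 2) := by ring
    first
      | linear_combination (-b) * h0
      | linear_combination (-b) * h0 / 8
      | linear_combination (-2 * b) * h0
      | linear_combination (-1) * h0
      | linear_combination h0

/-- an odd number of points -/
lemma pts_odd {κ : Type} [Field κ] [Finite κ] (h2 : (2 : κ) ≠ 0) {U : WeierstrassCurve κ}
    (h1 : U.a₁ = 0) (h22 : U.a₂ = 0) (h3 : U.a₃ = 0)
    (h : Irreducible (X ^ 3 + C U.a₄ * X + C U.a₆)) : ¬ 2 ∣ pts U + 1 := by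
  have := Fintype.ofFinite κ
  have heq : ∀ x y : κ, U.toAffine.Equation x y ↔ y ^ 2 = x ^ 3 + U.a₄ * x + U.a₆ := by
    intro x y
    rw [Affine.equation_iff, h1, h22, h3]
    constructor
    · intro h; linear_combination h
    · intro h; linear_combination h
  let σ : {P : κ × κ // U.toAffine.Equation P.1 P.2} → {P : κ × κ // U.toAffine.Equation P.1 P.2} :=
    fun P => ⟨(P.1.1, -P.1.2), by
      have := (heq _ _).1 P.2
      rw [heq]
      linear_combination this⟩
  have hinv : Function.Involutive σ := by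
    rintro ⟨⟨x, y⟩, hP⟩
    apply Subtype.ext
    show (x, - -y) = (x, y)
    rw [neg_neg]
  have hfix : ∀ P, σ P ≠ P := by
    rintro ⟨⟨x, y⟩, hP⟩ hcon
    have h5 : -y = y := (Prod.ext_iff.1 (Subtype.ext_iff.1 hcon)).2
    have h6 : y = 0 := by
      have : 2 * y = 0 := by linear_combination -h5
      exact (mul_eq_zero.1 this).resolve_left h2
    have h7 := (heq x y).1 hP
    rw [h6] at h7
    exact no_root h x (by linear_combination -h7)
  have hfin : Finite {P : κ × κ // U.toAffine.Equation P.1 P.2} := inferInstance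
  have := Fintype.ofFinite {P : κ × κ // U.toAffine.Equation P.1 P.2}
  have heven : Even (Fintype.card {P : κ × κ // U.toAffine.Equation P.1 P.2}) := by
    have h8 := Equiv.Perm.card_fixedPoints_modEq
      (f := (σ : Function.End {P : κ × κ // U.toAffine.Equation P.1 P.2})) (n := 1) (p := 2)
      (funext fun P => hinv P)
    have h9 : Fintype.card (Function.fixedPoints
        (σ : Function.End {P : κ × κ // U.toAffine.Equation P.1 P.2})) = 0 := by
      rw [Fintype.card_eq_zero_iff]
      exact ⟨fun P => hfix P.1 P.2⟩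
    rw [h9] at h8
    exact (Nat.even_iff).2 h8
  have h10 : pts U = Fintype.card {P : κ × κ // U.toAffine.Equation P.1 P.2} := by
    unfold pts
    rw [Nat.card_eq_fintype_card]
  rw [h10]
  obtain ⟨t, ht⟩ := heven
  omega

variable {M : Type} [Field M] [NumberField M] [Algebra F M]

/-- complete splitting -/
lemma spl_of (w : HeightOneSpectrum (𝓞 M))
    (h1 : ¬ Ram F w) (h2 : Ideal.absNorm w.asIdeal = Ideal.absNorm (w.asIdeal.under (𝓞 F))) :
    Spl F w := by
  intro σ hσ
  have hval := fun x : F => Pool.Agent.P8H4.PL.val_rel w h1 x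
  have hres := Pool.Agent.P8H4.PL.res_rel (k := F) w h2
  apply AlgEquiv.ext
  intro x
  have key : ∀ n : ℕ, w.valuation M (σ x - x) ≤ WithZero.exp (-(n : ℤ)) := by
    intro n
    obtain ⟨q, hq⟩ := Pool.Agent.P8H4.PL.dense_rat hval hres x n
    have e : σ x - x = σ (x - algebraMap F M q) - (x - algebraMap F M q) := by
      rw [map_sub, σ.commutes]
      ring
    rw [e]
    refine (Valuation.map_sub _ _ _).trans (max_le ?_ hq)
    rw [hσ]
    exact hq
  by_contra hne
  have hne' : w.valuation M (σ x - x) ≠ 0 := (Valuation.ne_zero_iff _).2 (sub_ne_zero.2 hne)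
  have h3 := key ((-WithZero.log (w.valuation M (σ x - x))).toNat + 1)
  rw [← WithZero.exp_log hne', WithZero.exp_le_exp] at h3
  push_cast at h3
  have h4 := Int.self_le_toNat (-WithZero.log (w.valuation M (σ x - x)))
  rw [WithZero.exp_log hne'] at h3
  omega

/-- the conditions on the extension -/
structure Adm (S : Finset ℕ) (p : 𝓞 F × 𝓞 F) (M : Type) [Field M] [NumberField M]
    [Algebra F M] : Prop where
  split : ∀ w : HeightOneSpectrum (𝓞 M), (∃ q ∈ S, (q : 𝓞 M) ∈ w.asIdeal) →
    ¬ Ram F w ∧ Ideal.absNorm w.asIdeal = Ideal.absNorm (w.asIdeal.under (𝓞 F))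
  ram : ∀ w : HeightOneSpectrum (𝓞 M), Ram F w → (6 : 𝓞 M) ∉ w.asIdeal ∧
    Irreducible (fv p (w.under (𝓞 F)))
  real : ∀ j : M →+* ℂ, ComplexEmbedding.IsReal (j.comp (algebraMap F M)) →
    ComplexEmbedding.IsReal j ∨
      0 < (j (algebraMap F M (algebraMap (𝓞 F) F (4 * p.1 ^ 3 + 27 * p.2 ^ 2)))).re

theorem p1_of_good {p : 𝓞 F × 𝓞 F} (h : Good p) :
    P1 2 ((Wp p).map (algebraMap (𝓞 F) F)) := by
  have e : (Wp p).map (algebraMap (𝓞 F) F) =
      Pool.Agent.N874.PP.sW (p.1 : F) (p.2 : F) := by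
    unfold Wp Pool.Agent.N874.PP.sW
    ext <;> simp
  rw [e]
  refine ⟨fun s hs => sha_of_shaC h.sha s hs, h.fin, ?_⟩
  have h1 := h.odd
  intro h2
  exact (Nat.not_even_iff_odd.2 h1) (even_iff_two_dvd.2 h2)

/-- **The curve over the extension.** -/
theorem p1_ext [IsGalois F M] {n : ℕ} (hn : Module.finrank F M = 2 ^ n) {S : Finset ℕ} {T : ℕ}
    {p : 𝓞 F × 𝓞 F} (hd : 4 * p.1 ^ 3 + 27 * p.2 ^ 2 ≠ 0) (hg : Good p) (hx : ExtP S T p)
    (ha : Adm S p M) : P1 2 (((Wp p).map (algebraMap (𝓞 F) F)).map (algebraMap F M)) := by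
  have hΔ : (Wp p).Δ ≠ 0 := by
    rw [Wp_Δ]
    exact mul_ne_zero (by norm_num) hd
  refine p1_up2 Pool.Agent.P8H4.PM.LP Nat.prime_two hn hΔ ?_ (Or.inr ?_) (p1_of_good hg)
  · intro w v hvw
    have hv : v = w.under (𝓞 F) := HeightOneSpectrum.ext hvw
    subst hv
    set v := w.under (𝓞 F) with hv
    have hpr := v.isPrime
    have hmem : ∀ z : 𝓞 F, z ∈ v.asIdeal ↔ algebraMap (𝓞 F) (𝓞 M) z ∈ w.asIdeal := fun z => Iff.rfl
    by_cases hR : Ram F w
    · right; left
      obtain ⟨h6, hirr⟩ := ha.ram w hR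
      have h6v : (6 : 𝓞 F) ∉ v.asIdeal := by
        rw [hmem, map_ofNat]
        exact h6
      have h2v : (2 : 𝓞 F) ∉ v.asIdeal := by
        intro h
        apply h6v
        have : (6 : 𝓞 F) = 3 * 2 := by norm_num
        rw [this]
        exact Ideal.mul_mem_left _ _ h
      have hmax : v.asIdeal.IsMaximal := v.isMaximal
      let _ : Field (𝓞 F ⧸ v.asIdeal) := Ideal.Quotient.field _
      have hfinq : Finite (𝓞 F ⧸ v.asIdeal) := Ideal.finiteQuotientOfFreeOfNeBot _ v.ne_bot
      have h6k : (6 : 𝓞 F ⧸ v.asIdeal) ≠ 0 := by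
        intro h
        apply h6v
        rw [← Ideal.Quotient.eq_zero_iff_mem, map_ofNat]
        exact h
      have h2k : (2 : 𝓞 F ⧸ v.asIdeal) ≠ 0 := by
        intro h
        apply h2v
        rw [← Ideal.Quotient.eq_zero_iff_mem, map_ofNat]
        exact h
      have hD : 4 * p.1 ^ 3 + 27 * p.2 ^ 2 ∉ v.asIdeal := by
        intro h
        have h1 := disc_ne (κ := 𝓞 F ⧸ v.asIdeal) h6k hirr
        apply h1
        rw [← Ideal.Quotient.eq_zero_iff_mem] at h
        simp only [map_add, map_mul, map_pow, map_ofNat] at h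
        exact h
      refine ⟨?_, fun _ => ?_⟩
      · rw [Wp_Δ]
        intro h
        have e : (6 * (2 : ℕ) * (-16 * (4 * p.1 ^ 3 + 27 * p.2 ^ 2)) : 𝓞 F) =
            6 * (2 * (2 * (2 * (2 * (2 * -(4 * p.1 ^ 3 + 27 * p.2 ^ 2)))))) := by push_cast; ring
        rw [e] at h
        rcases hpr.mem_or_mem h with h | h
        · exact h6v h
        rcases hpr.mem_or_mem h with h | h
        · exact h2v h
        rcases hpr.mem_or_mem h with h | h
        · exact h2v h
        rcases hpr.mem_or_mem h with h | h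
        · exact h2v h
        rcases hpr.mem_or_mem h with h | h
        · exact h2v h
        rcases hpr.mem_or_mem h with h | h
        · exact h2v h
        · exact hD ((neg_mem_iff).1 h)
      · exact pts_odd (κ := 𝓞 F ⧸ v.asIdeal) h2k (by simp [redAt, Wp]) (by simp [redAt, Wp])
          (by simp [redAt, Wp]) hirr
    · by_cases hS : ∃ q ∈ S, (q : 𝓞 F) ∈ v.asIdeal
      · left
        obtain ⟨q, hq, hqv⟩ := hS
        obtain ⟨h1, h2⟩ := ha.split w ⟨q, hq, by
          rw [hmem, map_natCast] at hqv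
          exact hqv⟩
        exact spl_of w h1 h2
      · right; right
        push Not at hS
        refine ⟨hR, ?_⟩
        have hN : NoS (Wp p) v := by
          by_cases h2 : (2 : 𝓞 F) ∈ v.asIdeal
          · exact noS_of_two h2 (hx.two v h2)
          · apply noS_of_disc
            intro h
            apply hx.sq v hS
            rw [Wp_Δ] at h
            have h16 : (-16 : 𝓞 F) ∉ v.asIdeal := by
              intro h
              apply h2
              have e : (-16 : 𝓞 F) = -(2 ^ 4) := by norm_num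
              rw [e, neg_mem_iff] at h
              exact hpr.mem_of_pow_mem 4 h
            exact (Ideal.IsPrime.mul_mem_pow v.asIdeal h).resolve_left h16
        rw [tnG_one hN]
        norm_num
  · intro j hj
    rcases ha.real j hj with h | h
    · exact Or.inl h
    · right
      rw [Wp_Δ]
      have e : (j (algebraMap F M (algebraMap (𝓞 F) F (-16 * (4 * p.1 ^ 3 + 27 * p.2 ^ 2))))) =
          -16 * (j (algebraMap F M (algebraMap (𝓞 F) F (4 * p.1 ^ 3 + 27 * p.2 ^ 2)))) := by
        rw [map_mul, map_mul, map_mul]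
        congr 1
        rw [map_neg, map_neg, map_neg, map_ofNat, map_ofNat, map_ofNat]
      rw [e]
      have h5 : (-16 * (j (algebraMap F M (algebraMap (𝓞 F) F (4 * p.1 ^ 3 + 27 * p.2 ^ 2))))).re =
          -16 * (j (algebraMap F M (algebraMap (𝓞 F) F (4 * p.1 ^ 3 + 27 * p.2 ^ 2)))).re := by
        have : (-16 : ℂ) = ((-16 : ℝ) : ℂ) := by norm_num
        rw [this, Complex.re_ofReal_mul]
      rw [h5]
      linarith

end

end Pool.Agent.P8H4.PX
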