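import Pool.Agent.P8H4.PX.Main

/-!
# A positive proportion of all elliptic curves over a number field, with additional conditions

After `N61/PF/Fin1.lean`.
-/

set_option autoImplicit false
set_option linter.all false

open Polynomial IsDedekindDomain NumberField
open scoped Classical

namespace Pool.Agent.P8H4.PX

open Pool.Agent.N783.PF
open Pool.Agent.N61.PF

section

variable {F : Type} [Field F] [NumberField F]

/-- The additional conditions for `y ^ 2 = x ^ 3 + A x + B`: `4 A ^ 3 + 27 B ^ 2` has no square factors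
outside `S`; `x ^ 3 + A x + B` is irreducible modulo the primes which contain a prime number up
to `T`, except those over `3`; no points with singular reduction at the primes over `2`. -/
structure ExtP (S : Finset ℕ) (T : ℕ) (p : 𝓞 F × 𝓞 F) : Prop where
  sq : ∀ v : HeightOneSpectrum (𝓞 F), (∀ q ∈ S, (q : 𝓞 F) ∉ v.asIdeal) →
    4 * p.1 ^ 3 + 27 * p.2 ^ 2 ∉ v.asIdeal ^ 2
  irr : ∀ v : HeightOneSpectrum (𝓞 F), (∃ q : ℕ, q.Prime ∧ q ≤ T ∧ (q : 𝓞 F) ∈ v.asIdeal) →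
    (3 : 𝓞 F) ∉ v.asIdeal → Irreducible (X ^ 3 + C (Ideal.Quotient.mk v.asIdeal p.1) * X +
      C (Ideal.Quotient.mk v.asIdeal p.2))
  two : ∀ v : HeightOneSpectrum (𝓞 F), (2 : 𝓞 F) ∈ v.asIdeal → TwoCond v p.1 p.2

/-- the discriminant -/
theorem dsc_pol (a b : 𝓞 F) : dsc 1 (pol a b) = 4 * a ^ 3 + 27 * b ^ 2 := by
  have hd := pol_natDegree a b
  have hdeg : (pol a b).degree = 3 := by
    rw [degree_eq_natDegree (pol_monic a b).ne_zero, hd]
    rfl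
  have h1 := resultant_deriv (f := pol a b) (by rw [hdeg]; norm_num)
  rw [hd, (pol_monic a b).leadingCoeff, discr_of_degree_eq_three hdeg] at h1
  have h3 : (pol a b).coeff 3 = 1 := by
    have := (pol_monic a b).coeff_natDegree
    rwa [hd] at this
  rw [pol_coeff0, pol_coeff1, pol_coeff2, h3] at h1
  unfold dsc
  have e : (2 * 1 + 1 : ℕ) = 3 := rfl
  have e2 : (2 * 1 : ℕ) = 3 - 1 := rfl
  rw [e, e2, h1]
  norm_num
  ring

theorem ext_of {B : ℕ} {S : Finset ℕ} {T : ℕ} {f : (𝓞 F)[X]} (h : Ht 1 B f) (hx : Ext S T f) :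
    ExtP S T (f.coeff 1, f.coeff 0) := by
  have hf := eq_pol h
  refine ⟨fun v hv => ?_, fun v hv h3 => ?_, hx.two⟩
  · have h1 := hx.sq v hv
    rw [hf, dsc_pol] at h1
    exact h1
  · have h1 := hx.irr v hv h3
    rw [hf] at h1
    have e : rd v.asIdeal (pol (f.coeff 1) (f.coeff 0)) =
        X ^ 3 + C (Ideal.Quotient.mk v.asIdeal (f.coeff 1)) * X +
          C (Ideal.Quotient.mk v.asIdeal (f.coeff 0)) := by
      simp [rd, pol]
    rw [e] at h1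
    exact h1

end

/-- **A positive proportion of all elliptic curves**, with the additional conditions. -/
theorem fin1x (F M : Type) [Field F] [NumberField F] [Field M] [NumberField M] (T : ℕ) :
    ∃ S : Finset ℕ, (∀ q ∈ S, q.Prime ∧ T < q ∧ Pool.Agent.N783.CF.Spl M q ∧
      ∀ 𝔓 : Ideal (𝓞 M), 𝔓.IsPrime → (q : 𝓞 M) ∉ 𝔓 ^ 2) ∧
    ∃ c : ℝ, 0 < c ∧ ∃ Y₀ : ℝ,
  ∀ Y : ℝ, {p : 𝓞 F × 𝓞 F | Crv Y p}.Finite ∧ (Y₀ ≤ Y → 0 < {p : 𝓞 F × 𝓞 F | Crv Y p}.ncard ∧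
    c * ({p : 𝓞 F × 𝓞 F | Crv Y p}.ncard : ℝ) ≤
      ({p : 𝓞 F × 𝓞 F | Crv Y p ∧ Good p ∧ ExtP S T p}.ncard : ℝ)) := by
  have h0 : S_PTS := Pool.Agent.N490.PF.pts
  obtain ⟨-, C, hC, hlow, hup⟩ := h0 F
  obtain ⟨S, hS, c, hc, B₀, hmain⟩ := mainx F M T
  refine ⟨S, hS, ?_⟩
  set d := Module.finrank ℚ F with hd
  set B₁ : ℕ := max B₀ 1 with hB₁
  refine ⟨c / (C ^ 2 * (C ^ 2 * 2 ^ (6 * d + 2))), by positivity, 27 * (B₁ : ℝ) ^ 6, ?_⟩
  intro Y
  have hfin := crv_finite (F := F) h0 Y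
  refine ⟨hfin, ?_⟩
  intro hY
  have hB₁1 : 1 ≤ B₁ := le_max_right _ _
  have hB₁r : (1 : ℝ) ≤ B₁ := by exact_mod_cast hB₁1
  have hY27 : 27 ≤ Y := by
    have : (1 : ℝ) ≤ (B₁ : ℝ) ^ 6 := one_le_pow₀ hB₁r
    linarith
  obtain ⟨B, hBB, hBY, hYB⟩ := exists_B B₁ Y hB₁1 hY
  have hB1 : 1 ≤ B := hB₁1.trans hBB
  obtain ⟨hfinH, hprop⟩ := hmain B ((le_max_left _ _).trans hBB)
  constructor
  · rw [Set.ncard_pos hfin]
    refine ⟨(1, 1), ⟨?_, ?_, ?_⟩⟩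
    · norm_num
    · intro 𝔭 hp _ hcon
      apply hp.ne_top
      rw [Ideal.eq_top_iff_one]
      exact Ideal.pow_le_self (by norm_num) hcon.1
    · intro σ
      constructor
      · simp; linarith
      · simp; linarith
  · have hu := crv_upper hC hup hB1 hYB
    have hl := ht_lower hC hlow hB1 hfinH
    rw [← hd] at hu hl
    -- the good polynomials give good curves
    have h5 : ({f : (𝓞 F)[X] | Ht 1 B f ∧ Irreducible (fF f) ∧ SelZero f ∧ Min 1 f ∧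
        Ext S T f}.ncard : ℝ) ≤
        ({p : 𝓞 F × 𝓞 F | Crv Y p ∧ Good p ∧ ExtP S T p}.ncard : ℝ) := by
      have h6 := Set.ncard_le_ncard_of_injOn (fun f : (𝓞 F)[X] => (f.coeff 1, f.coeff 0))
        (s := {f : (𝓞 F)[X] | Ht 1 B f ∧ Irreducible (fF f) ∧ SelZero f ∧ Min 1 f ∧ Ext S T f})
        (t := {p : 𝓞 F × 𝓞 F | Crv Y p ∧ Good p ∧ ExtP S T p})
        (fun f hf => ⟨crv_of_ht hf.1 hf.2.1 hf.2.2.2.1 hBY,
          good_of selc Pool.Agent.N713.QM.gfc Pool.Agent.N459.QM.finc hf.1 hf.2.1 hf.2.2.1,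
          ext_of hf.1 hf.2.2.2.2⟩)
        (by
          intro f hf f' hf' h
          have e := Prod.mk.injEq .. ▸ h
          rw [eq_pol hf.1, eq_pol hf'.1, e.1, e.2])
        (hfin.subset fun p hp => hp.1)
      exact_mod_cast h6
    have hBd : 0 < (B : ℝ) ^ (5 * d) := by
      have : (0 : ℝ) < B := by exact_mod_cast hB1
      positivity
    have h7 : ({p : 𝓞 F × 𝓞 F | Crv Y p}.ncard : ℝ) ≤
        (C ^ 2 * 2 ^ (6 * d + 2)) * (C ^ 2 * ({f : (𝓞 F)[X] | Ht 1 B f}.ncard : ℝ)) :=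
      hu.trans (mul_le_mul_of_nonneg_left hl (by positivity))
    calc c / (C ^ 2 * (C ^ 2 * 2 ^ (6 * d + 2))) * ({p : 𝓞 F × 𝓞 F | Crv Y p}.ncard : ℝ)
        ≤ c / (C ^ 2 * (C ^ 2 * 2 ^ (6 * d + 2))) *
          ((C ^ 2 * 2 ^ (6 * d + 2)) * (C ^ 2 * ({f : (𝓞 F)[X] | Ht 1 B f}.ncard : ℝ))) :=
          mul_le_mul_of_nonneg_left h7 (by positivity)
      _ = c * ({f : (𝓞 F)[X] | Ht 1 B f}.ncard : ℝ) := by
          field_simp
      _ ≤ _ := hprop.trans h5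

end Pool.Agent.P8H4.PX
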