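import Pool.Agent.N352.PF.Cnt
import Pool.Agent.N738.PJ.Exs

/-!
# The conditions at the small prime ideals

After `N823/PF/Gf.lean` (helper823), with an irreducible residue at all primes which do not divide
`2 g + 1`.
-/

set_option autoImplicit false

open Polynomial NumberField IsDedekindDomain

namespace Pool.Agent.P8H4.PX

open Pool.Agent.N352.PF

/-- one finite field -/
theorem exists_F (k : Type) [Field k] [Finite k] (g : ℕ) (hg : 1 ≤ g) : ∃ f : k[X], f.Monic ∧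
    f.natDegree = 2 * g + 1 ∧ f.coeff (2 * g) = 0 ∧ f.Separable ∧
    (((2 * g + 1 : ℕ) : k) ≠ 0 → Irreducible f) := by
  by_cases h : ((2 * g + 1 : ℕ) : k) = 0
  · have hd : (X ^ (2 * g + 1) - X : k[X]).natDegree = 2 * g + 1 := by
      rw [natDegree_sub_eq_left_of_natDegree_lt, natDegree_X_pow]
      rw [natDegree_X_pow, natDegree_X]
      omega
    refine ⟨X ^ (2 * g + 1) - X, ?_, hd, ?_, ?_, ?_⟩
    · refine monic_X_pow_sub ?_
      rw [degree_X]
      exact_mod_cast (by omega : 1 < 2 * g + 1)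
    · rw [coeff_sub, coeff_X_pow, if_neg (by omega), coeff_X, if_neg (by omega), sub_zero]
    · refine ⟨0, -1, ?_⟩
      rw [derivative_sub, derivative_X_pow, derivative_X, h, C_0, zero_mul]
      ring
    · intro h2
      exact absurd h h2
  · obtain ⟨r, h1, h2, h3, h4⟩ := Pool.Agent.N738.PJ.exists_irr0 k (2 * g + 1) (by omega) h
    exact ⟨r, h1, h3, by simpa using h4,
      PerfectField.separable_of_irreducible h2, fun _ => h2⟩

/-- one prime ideal -/
theorem exists_v (F : Type) [Field F] [NumberField F] (g : ℕ) (hg : 1 ≤ g)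
    (v : HeightOneSpectrum (𝓞 F)) : ∃ f : (𝓞 F ⧸ v.asIdeal)[X], f.Monic ∧
    f.natDegree = 2 * g + 1 ∧ f.coeff (2 * g) = 0 ∧ f.Separable ∧
    (((2 * g + 1 : ℕ) : 𝓞 F) ∉ v.asIdeal → Irreducible f) := by
  have hmax : v.asIdeal.IsMaximal := v.isMaximal
  letI : Field (𝓞 F ⧸ v.asIdeal) := Ideal.Quotient.field v.asIdeal
  have hfin : Finite (𝓞 F ⧸ v.asIdeal) := Ideal.finiteQuotientOfFreeOfNeBot v.asIdeal v.ne_bot
  obtain ⟨f, h1, h2, h3, h4, h5⟩ := exists_F (𝓞 F ⧸ v.asIdeal) g hg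
  refine ⟨f, h1, h2, h3, h4, fun h => h5 fun h6 => h ?_⟩
  rw [← Ideal.Quotient.eq_zero_iff_mem, map_natCast]
  exact h6

/-- the polynomial and the modulus -/
theorem gfx (F : Type) [Field F] [NumberField F] (g M : ℕ) (hg : 1 ≤ g) :
    ∃ (W : ℕ) (f₁ : (𝓞 F)[X]), f₁.Monic ∧ f₁.natDegree = 2 * g + 1 ∧ f₁.coeff (2 * g) = 0 ∧ 0 < W ∧
      2 ∣ W ∧ (∀ v : HeightOneSpectrum (𝓞 F), (2 : 𝓞 F) ∈ v.asIdeal → Irreducible (rv v f₁)) ∧
      (∀ v : HeightOneSpectrum (𝓞 F), (W : 𝓞 F) ∈ v.asIdeal → (rv v f₁).Separable) ∧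
      (∀ p : ℕ, p.Prime → p ≤ M → p ∣ W) ∧
      ∀ v : HeightOneSpectrum (𝓞 F), (W : 𝓞 F) ∈ v.asIdeal →
        ((2 * g + 1 : ℕ) : 𝓞 F) ∉ v.asIdeal → Irreducible (rv v f₁) := by
  classical
  set W : ℕ := primorial (max M 2) with hW
  have hWp : ∀ p : ℕ, p.Prime → p ≤ max M 2 → p ∣ W := fun p hp h =>
    (hp.dvd_primorial_iff).mpr h
  have hW0 : 0 < W := primorial_pos _
  choose f hf1 hf2 hf3 hf4 hf5 using exists_v F g hg
  have hWne : Ideal.span {(W : 𝓞 F)} ≠ 0 := by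
    rw [Ne, Ideal.zero_eq_bot, Ideal.span_singleton_eq_bot]
    exact_mod_cast hW0.ne'
  have hfinS := Ideal.finite_factors hWne
  set T : Finset (HeightOneSpectrum (𝓞 F)) := hfinS.toFinset with hT
  have hmem : ∀ v : HeightOneSpectrum (𝓞 F), (W : 𝓞 F) ∈ v.asIdeal → v ∈ T := by
    intro v hv
    rw [hT, Set.Finite.mem_toFinset, Set.mem_setOf_eq, Ideal.dvd_span_singleton]
    exact hv
  have hcrt : ∀ j : ℕ, ∃ a : 𝓞 F, ∀ v ∈ T, Ideal.Quotient.mk v.asIdeal a = (f v).coeff j := by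
    intro j
    have hx : ∀ v : HeightOneSpectrum (𝓞 F), ∃ x : 𝓞 F,
        Ideal.Quotient.mk v.asIdeal x = (f v).coeff j := fun v =>
      Ideal.Quotient.mk_surjective _
    choose x hx using hx
    obtain ⟨a, ha⟩ := IsDedekindDomain.exists_forall_sub_mem_ideal (s := T)
      (fun v => v.asIdeal) (fun _ => 1) (fun v _ => v.prime)
      (fun v _ w _ hvw h => hvw (HeightOneSpectrum.ext h)) (fun v => x v)
    refine ⟨a, fun v hv => ?_⟩
    have h1 := ha v hv
    rw [pow_one] at h1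
    rw [← hx v]
    exact (Ideal.Quotient.mk_eq_mk_iff_sub_mem _ _).2 h1
  choose a ha using hcrt
  set P : (𝓞 F)[X] := ∑ i ∈ Finset.range (2 * g), C (a i) * X ^ i with hP
  have hPd : P.degree < ((2 * g : ℕ) : WithBot ℕ) := by
    rw [hP]
    refine lt_of_le_of_lt (degree_sum_le _ _) ?_
    rw [Finset.sup_lt_iff (WithBot.bot_lt_coe _)]
    intro i hi
    refine lt_of_le_of_lt (degree_C_mul_X_pow_le _ _) ?_
    exact_mod_cast Finset.mem_range.mp hi
  have hPd2 : P.degree < ((2 * g + 1 : ℕ) : WithBot ℕ) :=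
    hPd.trans (by exact_mod_cast (by omega : 2 * g < 2 * g + 1))
  have hnd : (X ^ (2 * g + 1) + P).natDegree = 2 * g + 1 := by
    rw [natDegree_add_eq_left_of_degree_lt (by rw [degree_X_pow]; exact hPd2), natDegree_X_pow]
  have hmap : ∀ v ∈ T, rv v (X ^ (2 * g + 1) + P) = f v := by
    intro v hv
    conv_rhs => rw [(hf1 v).as_sum, hf2 v]
    rw [rv, Polynomial.map_add, Polynomial.map_pow, map_X, hP, Polynomial.map_sum]
    congr 1
    rw [Finset.sum_range_succ, hf3 v, C_0, zero_mul, add_zero]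
    refine Finset.sum_congr rfl fun i _ => ?_
    rw [Polynomial.map_mul, map_C, Polynomial.map_pow, map_X, ha i v hv]
  have h2W : 2 ∣ W := hWp 2 Nat.prime_two (le_max_right _ _)
  refine ⟨W, X ^ (2 * g + 1) + P, monic_X_pow_add hPd2, hnd, ?_, hW0, h2W, ?_, ?_,
    fun p hp hpM => hWp p hp (hpM.trans (le_max_left _ _)), fun v hv h => ?_⟩
  · rw [coeff_add, coeff_X_pow, if_neg (by omega), coeff_eq_zero_of_degree_lt hPd, add_zero]
  · intro v hv
    have hWv : (W : 𝓞 F) ∈ v.asIdeal := by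
      obtain ⟨m, hm⟩ := h2W
      rw [hm, Nat.cast_mul, Nat.cast_ofNat]
      exact Ideal.mul_mem_right _ _ hv
    rw [hmap v (hmem v hWv)]
    refine hf5 v fun h => ?_
    have h1 : ((2 * g + 1 : ℕ) : 𝓞 F) - (g : 𝓞 F) * 2 = 1 := by push_cast; ring
    exact v.isPrime.ne_top ((Ideal.eq_top_iff_one _).2
      (h1 ▸ v.asIdeal.sub_mem h (v.asIdeal.mul_mem_left _ hv)))
  · intro v hv
    rw [hmap v (hmem v hv)]
    exact hf4 v
  · rw [hmap v (hmem v hv)]
    exact hf5 v h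

end Pool.Agent.P8H4.PX
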