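import Pool.Agent.N783.PF.Final
import Pool.Agent.N545.WR.SPL
import Pool.Agent.P8H4.PX.Fam

/-!
# A positive proportion over every number field, with additional conditions

The project PF (`N783/PF/Final.lean`) with control of the reduction of the curves: the discriminant has
no square factors outside a finite set `S` of primes which split completely in a given field, and `f` is
irreducible modulo all small primes.  After `N710/PF/Exs.lean` and `N99/PF/Main.lean`.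
-/

set_option autoImplicit false
set_option linter.all false

open Polynomial NumberField IsDedekindDomain
open scoped Classical

namespace Pool.Agent.P8H4.PX

open Pool.Agent.N352.PJ (dd)
open Pool.Agent.N783.PF
open Pool.Agent.N99.PF (card_fib ht_card ht_scale scale_inj good_card)

/-- Existence of `S` with primes which split completely in `M`. -/
theorem exsx (F M : Type) [Field F] [NumberField F] [Field M] [NumberField M] (g W : ℕ) (hg : 1 ≤ g)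
    (m : ℕ) : ∃ (S : Finset ℕ) (𝔮 : ℕ → Ideal (𝓞 F)) (h P : ℕ → (𝓞 F)[X]),
    GoodS g W S 𝔮 h P ∧ S.card = m ∧ ∀ q ∈ S, Pool.Agent.N783.CF.Spl M q ∧
      ∀ 𝔓 : Ideal (𝓞 M), 𝔓.IsPrime → (q : 𝓞 M) ∉ 𝔓 ^ 2 := by
  obtain ⟨S, hS, hS2⟩ := Pool.Agent.N545.WR.t_SPL M
    (W + (2 * g + 1) + (discr F).natAbs + (discr M).natAbs) m
  have hdata : ∀ q : ℕ, ∃ (𝔮 : Ideal (𝓞 F)) (h A : (𝓞 F)[X]), q ∈ S →
    (∀ 𝔭 : Ideal (𝓞 F), 𝔭.IsPrime → (q : 𝓞 F) ∉ 𝔭 ^ 2) ∧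
    𝔮.IsPrime ∧ (q : 𝓞 F) ∈ 𝔮 ∧
    h.Monic ∧ h.natDegree = 2 * g ∧ Irreducible (rd 𝔮 h) ∧
    A.Monic ∧ A.natDegree = 2 * g + 1 ∧ A.coeff (2 * g) = 0 ∧
    Cg 𝔮 A (X * h) ∧
    ∀ 𝔭 : Ideal (𝓞 F), 𝔭.IsPrime → (q : 𝓞 F) ∈ 𝔭 → 𝔭 ≠ 𝔮 → Irreducible (rd 𝔭 A) := by
    intro q
    by_cases hq : q ∈ S
    · obtain ⟨h1, h2, h3, h4⟩ := hS2 q hq
      obtain ⟨𝔮, h, A, hh⟩ := Pool.Agent.N710.PF.exists_data F g q hg h1 (by omega) (by omega)
      exact ⟨𝔮, h, A, fun _ => hh⟩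
    · exact ⟨⊥, 0, 0, fun h => absurd h hq⟩
  choose 𝔮 h A hh using hdata
  refine ⟨S, 𝔮, h, A, fun q hq => ?_, hS, fun q hq => ⟨(hS2 q hq).2.2.2, fun 𝔓 h𝔓 =>
    Pool.Agent.N710.PF.not_mem_sq (hS2 q hq).1 (by have := (hS2 q hq).2.1; omega) h𝔓⟩⟩
  obtain ⟨h1, h2, h3, h4⟩ := hS2 q hq
  exact ⟨h1, by omega, by omega, h3, hh q hq⟩

/-- the discriminant of a twist -/
theorem dsc_scale {F : Type} [Field F] [NumberField F] {g : ℕ} {f : (𝓞 F)[X]} (D : 𝓞 F)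
    (hd : f.natDegree = 2 * g + 1) :
    dsc g (f.scaleRoots D) = D ^ ((2 * g + 1) * (2 * g)) * dsc g f := by
  have hd' : (derivative f).natDegree = 2 * g := by
    rw [natDegree_derivative, hd]
    rfl
  have hder : derivative (f.scaleRoots D) = (derivative f).scaleRoots D := by
    ext j
    rw [coeff_derivative, coeff_scaleRoots, coeff_scaleRoots, coeff_derivative, hd, hd']
    rw [show 2 * g + 1 - (j + 1) = 2 * g - j from by omega]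
    ring
  have h1 := resultant_scaleRoots f (derivative f) D
  rw [natDegree_scaleRoots, natDegree_scaleRoots, hd, hd'] at h1
  unfold dsc
  rw [hder]
  exact h1

/-- The additional conditions for `f = x ^ 3 + A x + B`: the discriminant has no square factors
outside `S`; `f` is irreducible modulo the primes which contain a prime number up to `T`, except those
over `3`; no points with singular reduction at the primes over `2`. -/
structure Ext {F : Type} [Field F] [NumberField F] (S : Finset ℕ) (T : ℕ) (f : (𝓞 F)[X]) :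
    Prop where
  sq : ∀ v : HeightOneSpectrum (𝓞 F), (∀ q ∈ S, (q : 𝓞 F) ∉ v.asIdeal) →
    dsc 1 f ∉ v.asIdeal ^ 2
  irr : ∀ v : HeightOneSpectrum (𝓞 F), (∃ p : ℕ, p.Prime ∧ p ≤ T ∧ (p : 𝓞 F) ∈ v.asIdeal) →
    (3 : 𝓞 F) ∉ v.asIdeal → Irreducible (rd v.asIdeal f)
  two : ∀ v : HeightOneSpectrum (𝓞 F), (2 : 𝓞 F) ∈ v.asIdeal → TwoCond v (f.coeff 1) (f.coeff 0)

/-- irreducibility of a twist modulo `v` -/
theorem irr_twist {F : Type} [Field F] [NumberField F] {f f₁ : (𝓞 F)[X]}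
    (v : HeightOneSpectrum (𝓞 F)) (hf : f.Monic) (h : Cg v.asIdeal f f₁)
    (h1 : Irreducible (rd v.asIdeal f₁)) {D : 𝓞 F} (hD : D ∉ v.asIdeal) :
    Irreducible (rd v.asIdeal (f.scaleRoots D)) := by
  have hmax : v.asIdeal.IsMaximal := v.isMaximal
  letI : Field (𝓞 F ⧸ v.asIdeal) := Ideal.Quotient.field v.asIdeal
  have e : rd v.asIdeal f = rd v.asIdeal f₁ := by
    ext j
    rw [rd, rd, coeff_map, coeff_map]
    exact Ideal.Quotient.eq.2 (h j)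
  have e2 : rd v.asIdeal (f.scaleRoots D) =
      (rd v.asIdeal f).scaleRoots (Ideal.Quotient.mk v.asIdeal D) := by
    rw [rd, map_scaleRoots]
    rw [hf.leadingCoeff, map_one]
    exact one_ne_zero
  rw [e2, e]
  exact Pool.Agent.N170.PF.irr_scale (fun h0 => hD (Ideal.Quotient.eq_zero_iff_mem.1 h0)) h1

/-- the condition at the primes over `2` for a twist -/
theorem two_twist {F : Type} [Field F] [NumberField F] {f f₁ : (𝓞 F)[X]}
    (v : HeightOneSpectrum (𝓞 F)) (hd : f.natDegree = 2 * 1 + 1) {W : ℕ} (h4 : 4 ∣ W)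
    (h : Cg (sp F W) f f₁) (h1 : TwoCond v (f₁.coeff 1) (f₁.coeff 0)) (h2 : (2 : 𝓞 F) ∈ v.asIdeal)
    {D : ℕ} (hD : D % 8 = 1) :
    TwoCond v ((f.scaleRoots ((D : ℕ) : 𝓞 F)).coeff 1) ((f.scaleRoots ((D : ℕ) : 𝓞 F)).coeff 0) := by
  have h22 : (4 : 𝓞 F) ∈ v.asIdeal ^ 2 := by
    have e : (4 : 𝓞 F) = 2 * 2 := by norm_num
    rw [e, pow_two]
    exact Ideal.mul_mem_mul h2 h2
  have hW : (W : 𝓞 F) ∈ v.asIdeal ^ 2 := by
    obtain ⟨m, rfl⟩ := h4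
    push_cast
    exact Ideal.mul_mem_right _ _ h22
  have hc : ∀ j, f₁.coeff j - f.coeff j ∈ v.asIdeal ^ 2 := by
    intro j
    rw [← neg_sub]
    exact (Ideal.neg_mem_iff _).2 ((Ideal.span_singleton_le_iff_mem _).2 hW (h j))
  have hDm : ∀ n : ℕ, (1 : 𝓞 F) - (D : 𝓞 F) ^ n ∈ v.asIdeal ^ 2 := by
    intro n
    obtain ⟨m, hm⟩ : ∃ m, D ^ n = 8 * m + 1 := by
      have h5 : D ^ n % 8 = 1 := by
        rw [Nat.pow_mod, hD, one_pow]
        rfl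
      exact ⟨D ^ n / 8, by omega⟩
    have e : (1 : 𝓞 F) - (D : 𝓞 F) ^ n = 4 * (-(2 * (m : 𝓞 F))) := by
      have h6 : (D : 𝓞 F) ^ n = 8 * (m : 𝓞 F) + 1 := by exact_mod_cast hm
      rw [h6]
      ring
    rw [e]
    exact Ideal.mul_mem_right _ _ h22
  have key : ∀ j, f₁.coeff j - (f.scaleRoots ((D : ℕ) : 𝓞 F)).coeff j ∈ v.asIdeal ^ 2 := by
    intro j
    rw [coeff_scaleRoots]
    have e : f₁.coeff j - f.coeff j * (D : 𝓞 F) ^ (f.natDegree - j) =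
        (f₁.coeff j - f.coeff j) + f.coeff j * (1 - (D : 𝓞 F) ^ (f.natDegree - j)) := by ring
    rw [e]
    exact Ideal.add_mem _ (hc j) (Ideal.mul_mem_left _ _ (hDm _))
  exact h1.congr (key 1) (key 0)

/-- **A positive proportion**, with the additional conditions. -/
theorem mainx (F M : Type) [Field F] [NumberField F] [Field M] [NumberField M] (T : ℕ) : ∃ S : Finset ℕ, (∀ q ∈ S, q.Prime ∧ T < q ∧ Pool.Agent.N783.CF.Spl M q ∧
      ∀ 𝔓 : Ideal (𝓞 M), 𝔓.IsPrime → (q : 𝓞 M) ∉ 𝔓 ^ 2) ∧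
    ∃ c : ℝ, 0 < c ∧ ∃ B₀ : ℕ, ∀ B ≥ B₀,
    {f : (𝓞 F)[X] | Ht 1 B f}.Finite ∧ c * ({f : (𝓞 F)[X] | Ht 1 B f}.ncard : ℝ) ≤
      ({f : (𝓞 F)[X] | Ht 1 B f ∧ Irreducible (fF f) ∧ SelZero f ∧ Min 1 f ∧
        Ext S T f}.ncard : ℝ) := by
  obtain ⟨κ₁, htw'⟩ := tw 1 F le_rfl
  obtain ⟨κ₂, hsq'⟩ := sqf 1 F le_rfl
  set κ : ℕ := max κ₁ κ₂ with hκ
  have htw : ∀ (B N W : ℕ) (f₁ : (𝓞 F)[X]) (S : Finset ℕ) (𝔮 : ℕ → Ideal (𝓞 F))
      (r P : ℕ → (𝓞 F)[X]) (f : (𝓞 F)[X]), κ ≤ W → GoodF 1 W f₁ → GoodS 1 W S 𝔮 r P →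
      Fam 1 B W f₁ S P f → 2 ^ κ * B ≤ 4 ^ N → 1 ≤ B → ¬ LBad 1 N κ S 𝔮 P f →
      SqF 1 f ∧ ∃ J ⊆ S, Irreducible (fF (f.scaleRoots ((Dp J : ℕ) : 𝓞 F))) ∧
        SelZero (f.scaleRoots ((Dp J : ℕ) : 𝓞 F)) ∧
        Min 1 (f.scaleRoots ((Dp J : ℕ) : 𝓞 F)) := by
    intro B N W f₁ S 𝔮 r P f hW hf₁ hS hF hBN hB hnb
    have hBN1 : 2 ^ κ₁ * B ≤ 4 ^ N :=
      (Nat.mul_le_mul_right _ (Nat.pow_le_pow_right (by norm_num) (le_max_left _ _))).trans hBN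
    have hBN2 : 2 ^ κ₂ * B ≤ 4 ^ N :=
      (Nat.mul_le_mul_right _ (Nat.pow_le_pow_right (by norm_num) (le_max_right _ _))).trans hBN
    refine ⟨?_, htw' B N W f₁ S 𝔮 r P f ((le_max_left _ _).trans hW) hf₁ hS hF hBN1 hB fun h =>
      hnb (Pool.Agent.N170.PF.LBad.mono (le_max_left _ _) h)⟩
    exact hsq' B N W f₁ S 𝔮 r P f ((le_max_right _ _).trans hW) hf₁ hS hF
      (Pool.Agent.N667.PF.irr F 1 W f₁ f hf₁ hF.one hF.ht.mon hF.ht.deg) hBN2 hB fun h =>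
      hnb (Pool.Agent.N170.PF.LBad.mono (le_max_right _ _) h)
  obtain ⟨C, K, hbad⟩ := bad F 1 κ le_rfl
  obtain ⟨W, f₁, hKW, hTW, hf₁, hPr, c, hc, hfam⟩ := fam1 F (max (max K κ) T)
  obtain ⟨-, Cp, hCp, -, hpt⟩ := Pool.Agent.N490.PF.pts F
  set D : ℕ := Module.finrank ℚ F * dd 1 with hD
  obtain ⟨m, hm⟩ : ∃ m : ℕ, 2 * (C * (4 * 2 ^ κ : ℝ) ^ D) / c < 2 ^ m :=
    pow_unbounded_of_one_lt _ (by norm_num)
  obtain ⟨S, 𝔮, h, P, hS, hcard, hSM⟩ := exsx F M 1 W le_rfl m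
  have hTle : T ≤ W := (le_max_right _ _).trans hKW
  refine ⟨S, fun q hq => ⟨(hS q hq).1, hTle.trans_lt (hS q hq).2.1, hSM q hq⟩, ?_⟩
  obtain ⟨B₁₀, hB₁₀⟩ := hfam S 𝔮 h P hS
  obtain ⟨N₀, hN₀⟩ := hbad W S 𝔮 h P (((le_max_left _ _).trans (le_max_left _ _)).trans hKW) hS
  set Q : ℕ := ∏ q ∈ S, q with hQ
  have hq1 : ∀ q ∈ S, 1 ≤ q := fun q hq => (hS q hq).1.pos
  have hQ1 : 1 ≤ Q := Finset.one_le_prod' hq1
  set Pn : ℕ := (∏ q ∈ S, q ^ (2 * 1)) ^ Module.finrank ℚ F with hPn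
  have hP0 : (0 : ℝ) < Pn := by
    have : 0 < Pn := pow_pos (Finset.prod_pos fun q hq => pow_pos (hq1 q hq) _) _
    exact_mod_cast this
  have hQ0 : (0 : ℝ) < Q := by exact_mod_cast hQ1
  set X₀ : ℕ := max (max B₁₀ (4 ^ N₀)) 1 with hX₀
  refine ⟨c / 2 / (Pn * 2 ^ m * ((2 * Cp) ^ (2 * 1) * (2 * Q) ^ D)), by positivity, X₀ * Q,
    fun B hB => ?_⟩
  set B₁ : ℕ := B / Q with hB₁
  have hBX : X₀ ≤ B₁ := (Nat.le_div_iff_mul_le hQ1).2 hB
  have hb1 : 1 ≤ B₁ := (le_max_right _ _).trans hBX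
  have hb2 : B₁₀ ≤ B₁ := ((le_max_left _ _).trans (le_max_left _ _)).trans hBX
  have hb3 : 4 ^ N₀ ≤ B₁ := ((le_max_right _ _).trans (le_max_left _ _)).trans hBX
  have hBQ : B₁ * Q ≤ B := Nat.div_mul_le_self B Q
  have hBQ2 : B ≤ 2 * Q * B₁ := by
    have e1 : B < B₁ * Q + Q := by
      have := Nat.lt_div_mul_add (a := B) (b := Q) hQ1
      exact this
    nlinarith
  have hB1 : 1 ≤ B := le_trans (by nlinarith) hBQ
  obtain ⟨N, hNa, hNb⟩ : ∃ N : ℕ, 2 ^ κ * B₁ ≤ 4 ^ N ∧ 4 ^ N ≤ 4 * (2 ^ κ * B₁) := by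
    refine ⟨Nat.log 4 (2 ^ κ * B₁) + 1, (Nat.lt_pow_succ_log_self (by norm_num) _).le, ?_⟩
    rw [pow_succ, mul_comm]
    refine Nat.mul_le_mul_left 4 (Nat.pow_log_le_self 4 ?_)
    positivity
  have hNN : N₀ ≤ N := by
    have e1 : 4 ^ N₀ ≤ 4 ^ N := hb3.trans (le_trans (Nat.le_mul_of_pos_left _ (by positivity)) hNa)
    exact (Nat.pow_le_pow_iff_right (by norm_num)).1 e1
  obtain ⟨hfin, hBd⟩ := hN₀ N hNN
  refine ⟨(ht_card hCp hpt 1 B hB1).1, ?_⟩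
  set H := {f : (𝓞 F)[X] | Ht 1 B f ∧ Irreducible (fF f) ∧ SelZero f ∧ Min 1 f ∧ Ext S T f}
    with hH
  set G := {f : (𝓞 F)[X] | Fam 1 B₁ W f₁ S P f} \ {f : (𝓞 F)[X] | LBad 1 N κ S 𝔮 P f} with hGdef
  have hHf : H.Finite := (ht_card hCp hpt 1 B hB1).1.subset fun f hf => hf.1
  have hGf : G.Finite := (ht_card hCp hpt 1 B₁ hb1).1.subset fun f hf => hf.1.ht
  have hG : c / 2 * (B₁ : ℝ) ^ D ≤ Pn * (G.ncard : ℝ) := by
    refine good_card (C := C) (m := m) (κ := κ) hc hP0 B₁ N (hB₁₀ B₁ hb2) hfin ?_ hm ?_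
    · rw [hcard] at hBd
      have e2 : Module.finrank ℚ F * (2 * N * dd 1) = 2 * N * D := by rw [hD]; ring
      rw [e2] at hBd
      exact_mod_cast hBd
    · exact_mod_cast hNb
  have hJ0 : ∀ J ⊆ S, ((Dp J : ℕ) : 𝓞 F) ≠ 0 := by
    intro J hJ
    have : 0 < ∏ q ∈ J, q := Finset.prod_pos fun q hq => hq1 q (hJ hq)
    have h5 : (Dp J : ℕ) ≠ 0 := this.ne'
    exact_mod_cast h5
  have hDmem : ∀ J ⊆ S, ∀ v : HeightOneSpectrum (𝓞 F), (∀ q ∈ S, (q : 𝓞 F) ∉ v.asIdeal) →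
      ((Dp J : ℕ) : 𝓞 F) ∉ v.asIdeal := by
    intro J hJ v hv hm
    rw [Dp, Nat.cast_prod] at hm
    obtain ⟨q, hq, hqm⟩ := (Ideal.IsPrime.prod_mem_iff (hp := v.isPrime)).1 hm
    exact hv q (hJ hq) hqm
  have hcard1 := card_fib hGf hHf S (fun J f => f.scaleRoots ((Dp J : ℕ) : 𝓞 F)) (by
      intro f hf
      obtain ⟨hsqf, J, hJ, hirr, hsel, hmin⟩ := htw B₁ N W f₁ S 𝔮 h P f
        (((le_max_right _ _).trans (le_max_left _ _)).trans hKW) hf₁ hS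
        hf.1 hNa hb1 hf.2
      have hDle : Dp J ≤ Q :=
        Finset.prod_le_prod_of_subset_of_one_le' hJ fun q hq _ => hq1 q hq
      refine ⟨J, hJ, ht_scale hf.1.ht ((Nat.mul_le_mul_left _ hDle).trans hBQ), hirr, hsel, hmin,
        fun v hv hmem => ?_, fun v hv h3 => ?_, fun v hv => ?_⟩
      · rw [dsc_scale _ hf.1.ht.deg] at hmem
        have h6 : ((Dp J : ℕ) : 𝓞 F) ^ ((2 * 1 + 1) * (2 * 1)) ∉ v.asIdeal := fun h =>
          hDmem J hJ v hv (v.isPrime.mem_of_pow_mem _ h)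
        refine hsqf v.asIdeal v.isPrime v.ne_bot ?_
        exact (Ideal.IsPrime.mul_mem_pow v.asIdeal hmem).resolve_left h6
      · obtain ⟨p, hp, hpT, hpv⟩ := hv
        have hpW : p ∣ W := hTW p hp (hpT.trans (le_max_right _ _))
        have hWv : (W : 𝓞 F) ∈ v.asIdeal := by
          obtain ⟨w, hw⟩ := hpW
          rw [hw, Nat.cast_mul]
          exact v.asIdeal.mul_mem_right _ hpv
        refine irr_twist v hf.1.ht.mon (fun j => ?_) (hPr.irr v hWv h3) ?_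
        · exact (Ideal.span_singleton_le_iff_mem _).2 hWv (hf.1.one j)
        · refine hDmem J hJ v fun q hq hqv => ?_
          have h7 : Nat.Coprime p q := (Nat.coprime_primes hp (hS q hq).1).2 (by
            have := (hS q hq).2.1
            have := Nat.le_of_dvd hf₁.pos hpW
            omega)
          obtain ⟨a, b, hab⟩ := Nat.isCoprime_iff_coprime.2 h7
          refine v.isPrime.ne_top ((Ideal.eq_top_iff_one _).2 ?_)
          have h8 : (a : 𝓞 F) * (p : 𝓞 F) + (b : 𝓞 F) * (q : 𝓞 F) = 1 := by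
            have h9 := congrArg (fun z : ℤ => (z : 𝓞 F)) hab
            push_cast at h9
            exact h9
          rw [← h8]
          exact v.asIdeal.add_mem (v.asIdeal.mul_mem_left _ hpv) (v.asIdeal.mul_mem_left _ hqv)
      · refine two_twist v hf.1.ht.deg hPr.four (hf.1.one) (hPr.two v hv) hv ?_
        have h6 : ∀ J : Finset ℕ, J ⊆ S → (∏ q ∈ J, q) % 8 = 1 := by
          intro J
          induction J using Finset.induction_on with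
          | empty => intro _; rfl
          | insert q J hq ih =>
            intro h7
            rw [Finset.prod_insert hq, Nat.mul_mod, ih fun x hx => h7 (Finset.mem_insert_of_mem hx),
              (hS q (h7 (Finset.mem_insert_self q J))).2.2.2.1]
        exact h6 J hJ) (by
      intro J hJ x hx y hy hxy
      exact scale_inj (hJ0 J hJ) (by rw [hx.1.ht.deg, hy.1.ht.deg]) hxy)
  rw [hcard] at hcard1
  have hcard' : (G.ncard : ℝ) ≤ 2 ^ m * H.ncard := by exact_mod_cast hcard1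
  have hM' : ({f : (𝓞 F)[X] | Ht 1 B f}.ncard : ℝ) ≤
      (2 * Cp) ^ (2 * 1) * (2 * Q) ^ D * (B₁ : ℝ) ^ D := by
    have e1 : ({f : (𝓞 F)[X] | Ht 1 B f}.ncard : ℝ) ≤ (2 * Cp) ^ (2 * 1) * (B : ℝ) ^ D :=
      (ht_card hCp hpt 1 B hB1).2
    refine e1.trans ?_
    rw [mul_assoc, ← mul_pow]
    have e2 : (B : ℝ) ≤ 2 * Q * B₁ := by exact_mod_cast hBQ2
    gcongr
  calc c / 2 / (Pn * 2 ^ m * ((2 * Cp) ^ (2 * 1) * (2 * Q) ^ D)) *
        ({f : (𝓞 F)[X] | Ht 1 B f}.ncard : ℝ)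
      ≤ c / 2 / (Pn * 2 ^ m * ((2 * Cp) ^ (2 * 1) * (2 * Q) ^ D)) *
        ((2 * Cp) ^ (2 * 1) * (2 * Q) ^ D * (B₁ : ℝ) ^ D) :=
        mul_le_mul_of_nonneg_left hM' (by positivity)
    _ = c / 2 * (B₁ : ℝ) ^ D / (Pn * 2 ^ m) := by
        field_simp
    _ ≤ (Pn * (G.ncard : ℝ)) / (Pn * 2 ^ m) := by gcongr
    _ ≤ (Pn * (2 ^ m * H.ncard)) / (Pn * 2 ^ m) := by gcongr
    _ = H.ncard := by field_simp

end Pool.Agent.P8H4.PX
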